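import Pool.Agent.TH656.SDNullRel

/-!
# Project SD, G9: a map on `S³ × S⁵` minus a point is null homotopic on the small sphere
-/

open scoped Topology unitInterval
open Set Topology

noncomputable section

namespace Pool.Agent.TH656.SD

open Pool.Agent.TH179.SD

/-- the point with the coordinates `(a, b)` -/
def jn (a : Eu 3) (b : Eu 5) : V := ![⟨a 0, a 1⟩, ⟨a 2, b 0⟩, ⟨b 1, b 2⟩, ⟨b 3, b 4⟩]

/-- the first coordinates -/
def aa (w : V) : Eu 3 := !₂[(w 0).re, (w 0).im, (w 1).re]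

/-- the last coordinates -/
def bb (w : V) : Eu 5 := !₂[(w 1).im, (w 2).re, (w 2).im, (w 3).re, (w 3).im]

/-- reflection -/
def rA (a : Eu 3) : Eu 3 := !₂[-a 0, a 1, a 2]

/-- reflection -/
def rB (b : Eu 5) : Eu 5 := !₂[b 0, -b 1, b 2, b 3, b 4]

lemma aa_jn (a : Eu 3) (b : Eu 5) : aa (jn a b) = a := by
  ext i; fin_cases i <;> simp [aa, jn]

lemma bb_jn (a : Eu 3) (b : Eu 5) : bb (jn a b) = b := by
  ext i; fin_cases i <;> simp [bb, jn]

lemma jn_aa_bb (w : V) : jn (aa w) (bb w) = w := by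
  funext i; fin_cases i <;> simp [aa, bb, jn]

lemma na_eq (w : V) : na w = ‖aa w‖ ^ 2 := by
  rw [EuclideanSpace.real_norm_sq_eq]
  simp [na, aa, Fin.sum_univ_succ]
  ring

lemma nb_eq (w : V) : nb w = ‖bb w‖ ^ 2 := by
  rw [EuclideanSpace.real_norm_sq_eq]
  simp [nb, bb, Fin.sum_univ_succ]
  ring

lemma norm_rA (a : Eu 3) : ‖rA a‖ = ‖a‖ := by
  have h : ‖rA a‖ ^ 2 = ‖a‖ ^ 2 := by
    rw [EuclideanSpace.real_norm_sq_eq, EuclideanSpace.real_norm_sq_eq]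
    simp [rA, Fin.sum_univ_succ]
  exact (sq_eq_sq₀ (norm_nonneg _) (norm_nonneg _)).1 h

lemma norm_rB (b : Eu 5) : ‖rB b‖ = ‖b‖ := by
  have h : ‖rB b‖ ^ 2 = ‖b‖ ^ 2 := by
    rw [EuclideanSpace.real_norm_sq_eq, EuclideanSpace.real_norm_sq_eq]
    simp [rB, Fin.sum_univ_succ]
  exact (sq_eq_sq₀ (norm_nonneg _) (norm_nonneg _)).1 h

lemma rA_smul (s : ℝ) (a : Eu 3) : rA (s • a) = s • rA a := by
  ext i; fin_cases i <;> simp [rA]

lemma rB_smul (s : ℝ) (b : Eu 5) : rB (s • b) = s • rB b := by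
  ext i; fin_cases i <;> simp [rB]

lemma invA_jn (a : Eu 3) (b : Eu 5) : invA (jn a b) = jn ((‖a‖ ^ 2)⁻¹ • rA a) b := by
  have h : na (jn a b) = ‖a‖ ^ 2 := by rw [na_eq, aa_jn]
  unfold invA
  rw [h]
  funext i; fin_cases i
  · apply Complex.ext <;> simp [jn, rA] <;> ring
  · apply Complex.ext <;> simp [jn, rA] <;> ring
  · simp [jn]
  · simp [jn]

lemma invB_jn (a : Eu 3) (b : Eu 5) : invB (jn a b) = jn a ((‖b‖ ^ 2)⁻¹ • rB b) := by
  have h : nb (jn a b) = ‖b‖ ^ 2 := by rw [nb_eq, bb_jn]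
  unfold invB
  rw [h]
  funext i; fin_cases i
  · simp [jn]
  · apply Complex.ext <;> simp [jn, rB] <;> ring
  · apply Complex.ext <;> simp [jn, rB] <;> ring
  · apply Complex.ext <;> simp [jn, rB] <;> ring

lemma continuous_jn : Continuous fun p : Eu 3 × Eu 5 => jn p.1 p.2 := by
  refine continuous_pi fun i => ?_
  have h : ∀ f g : Eu 3 × Eu 5 → ℝ, Continuous f → Continuous g →
      Continuous fun p => (⟨f p, g p⟩ : ℂ) := by
    intro f g hf hg
    exact Complex.equivRealProdCLM.symm.continuous.comp (hf.prodMk hg)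
  fin_cases i
  · simp only [jn]; exact h _ _ (by fun_prop) (by fun_prop)
  · simp only [jn]; exact h _ _ (by fun_prop) (by fun_prop)
  · simp only [jn]; exact h _ _ (by fun_prop) (by fun_prop)
  · simp only [jn]; exact h _ _ (by fun_prop) (by fun_prop)

lemma continuous_aa : Continuous aa := by
  unfold aa
  refine (PiLp.continuous_toLp 2 _).comp ?_
  refine continuous_pi fun i => ?_
  fin_cases i <;> simp <;> fun_prop

lemma continuous_bb : Continuous bb := by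
  unfold bb
  refine (PiLp.continuous_toLp 2 _).comp ?_
  refine continuous_pi fun i => ?_
  fin_cases i <;> simp <;> fun_prop

lemma continuous_rA : Continuous rA := by
  unfold rA
  refine (PiLp.continuous_toLp 2 _).comp ?_
  refine continuous_pi fun i => ?_
  fin_cases i <;> simp <;> fun_prop

lemma continuous_rB : Continuous rB := by
  unfold rB
  refine (PiLp.continuous_toLp 2 _).comp ?_
  refine continuous_pi fun i => ?_
  fin_cases i <;> simp <;> fun_prop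

/-! ### the first homotopy -/

section

variable {Y : Type} [TopologicalSpace Y]

/-- the point in chart `0` -/
def P0 (t : ℝ) (a : Eu 3) (b : Eu 5) : V :=
  jn (((1 - t * ‖a‖) * (‖a‖ ^ 2)⁻¹) • rA a) ((1 - t * ‖b‖)⁻¹ • b)

/-- the point in chart `1` -/
def P1 (t : ℝ) (a : Eu 3) (b : Eu 5) : V :=
  jn ((1 - t * ‖a‖)⁻¹ • a) (((1 - t * ‖b‖) * (‖b‖ ^ 2)⁻¹) • rB b)

/-- the point in chart `2` -/
def P2 (t : ℝ) (a : Eu 3) (b : Eu 5) : V :=
  jn (((1 - t * ‖a‖) * (‖a‖ ^ 2)⁻¹) • rA a) (((1 - t * ‖b‖) * (‖b‖ ^ 2)⁻¹) • rB b)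

lemma invB_P0 {t : ℝ} {a : Eu 3} {b : Eu 5} (hb : b ≠ 0) (hr : 1 - t * ‖b‖ ≠ 0) :
    invB (P0 t a b) = P2 t a b ∧ nb (P0 t a b) ≠ 0 := by
  have hb' : ‖b‖ ≠ 0 := norm_ne_zero_iff.2 hb
  constructor
  · unfold P0 P2
    rw [invB_jn, rB_smul, smul_smul, norm_smul]
    congr 2
    rw [mul_pow, Real.norm_eq_abs, sq_abs]
    field_simp
  · unfold P0
    rw [nb_eq, bb_jn]
    have : (1 - t * ‖b‖)⁻¹ • b ≠ 0 := smul_ne_zero (inv_ne_zero hr) hb
    have := norm_ne_zero_iff.2 this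
    positivity

lemma invA_P1 {t : ℝ} {a : Eu 3} {b : Eu 5} (ha : a ≠ 0) (hr : 1 - t * ‖a‖ ≠ 0) :
    invA (P1 t a b) = P2 t a b ∧ na (P1 t a b) ≠ 0 := by
  have ha' : ‖a‖ ≠ 0 := norm_ne_zero_iff.2 ha
  constructor
  · unfold P1 P2
    rw [invA_jn, rA_smul, smul_smul, norm_smul]
    congr 2
    rw [mul_pow, Real.norm_eq_abs, sq_abs]
    field_simp
  · unfold P1
    rw [na_eq, aa_jn]
    have : (1 - t * ‖a‖)⁻¹ • a ≠ 0 := smul_ne_zero (inv_ne_zero hr) ha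
    have := norm_ne_zero_iff.2 this
    positivity

open Classical in
/-- the first homotopy -/
def H1 (G : Fin 3 → V → Y) (t : ℝ) (a : Eu 3) (b : Eu 5) : Y :=
  if b = 0 then G 0 (P0 t a b) else if a = 0 then G 1 (P1 t a b) else G 2 (P2 t a b)

variable (G : Fin 3 → V → Y)
  (hG : ∀ c, Continuous (G c))
  (hc : ∀ c d : Fin 3, ∀ q ∈ O (Sum.inr c) (Sum.inr d), G c q = G d (tr (Sum.inr c) (Sum.inr d) q))

include hc in
lemma G02 {q : V} (hq : nb q ≠ 0) : G 0 q = G 2 (invB q) := by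
  have := hc 0 2 q (by simpa [O] using hq)
  simpa [tr] using this

include hc in
lemma G12 {q : V} (hq : na q ≠ 0) : G 1 q = G 2 (invA q) := by
  have := hc 1 2 q (by simpa [O] using hq)
  simpa [tr] using this

include hc in
lemma H1_eq0 {t : ℝ} {a : Eu 3} {b : Eu 5} (ha : a ≠ 0) (hr : 1 - t * ‖b‖ ≠ 0) :
    H1 G t a b = G 0 (P0 t a b) := by
  unfold H1
  by_cases hb : b = 0
  · rw [if_pos hb]
  · rw [if_neg hb, if_neg ha, G02 G hc (invB_P0 hb hr).2, (invB_P0 hb hr).1]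

include hc in
lemma H1_eq1 {t : ℝ} {a : Eu 3} {b : Eu 5} (hb : b ≠ 0) (hr : 1 - t * ‖a‖ ≠ 0) :
    H1 G t a b = G 1 (P1 t a b) := by
  unfold H1
  rw [if_neg hb]
  by_cases ha : a = 0
  · rw [if_pos ha]
  · rw [if_neg ha, G12 G hc (invA_P1 ha hr).2, (invA_P1 ha hr).1]

lemma H1_eq2 {t : ℝ} {a : Eu 3} {b : Eu 5} (ha : a ≠ 0) (hb : b ≠ 0) :
    H1 G t a b = G 2 (P2 t a b) := by
  unfold H1
  rw [if_neg hb, if_neg ha]

/-- the boundary of the product of the balls -/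
def bd' : Set (Eu 3 × Eu 5) := {p | max (‖p.1‖) (‖p.2‖) = 1}

lemma cA (p : ℝ × Eu 3 × Eu 5) :
    ContinuousAt (fun p : ℝ × Eu 3 × Eu 5 => 1 - p.1 * ‖p.2.1‖) p := by fun_prop

lemma cB (p : ℝ × Eu 3 × Eu 5) :
    ContinuousAt (fun p : ℝ × Eu 3 × Eu 5 => 1 - p.1 * ‖p.2.2‖) p := by fun_prop

lemma cA' {p : ℝ × Eu 3 × Eu 5} (ha : p.2.1 ≠ 0) :
    ContinuousAt (fun p : ℝ × Eu 3 × Eu 5 => ((1 - p.1 * ‖p.2.1‖) * (‖p.2.1‖ ^ 2)⁻¹) • rA p.2.1)
      p := by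
  have ha' : ‖p.2.1‖ ^ 2 ≠ 0 := pow_ne_zero _ (norm_ne_zero_iff.2 ha)
  have e2 : ContinuousAt (fun p : ℝ × Eu 3 × Eu 5 => ‖p.2.1‖ ^ 2) p := by fun_prop
  have e3 : ContinuousAt (fun p : ℝ × Eu 3 × Eu 5 => rA p.2.1) p :=
    (continuous_rA.comp (continuous_fst.comp continuous_snd)).continuousAt
  exact ((cA p).mul (e2.inv₀ ha')).smul e3

lemma cB' {p : ℝ × Eu 3 × Eu 5} (hb : p.2.2 ≠ 0) :
    ContinuousAt (fun p : ℝ × Eu 3 × Eu 5 => ((1 - p.1 * ‖p.2.2‖) * (‖p.2.2‖ ^ 2)⁻¹) • rB p.2.2)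
      p := by
  have hb' : ‖p.2.2‖ ^ 2 ≠ 0 := pow_ne_zero _ (norm_ne_zero_iff.2 hb)
  have e2 : ContinuousAt (fun p : ℝ × Eu 3 × Eu 5 => ‖p.2.2‖ ^ 2) p := by fun_prop
  have e3 : ContinuousAt (fun p : ℝ × Eu 3 × Eu 5 => rB p.2.2) p :=
    (continuous_rB.comp (continuous_snd.comp continuous_snd)).continuousAt
  exact ((cB p).mul (e2.inv₀ hb')).smul e3

lemma cP0 {p : ℝ × Eu 3 × Eu 5} (ha : p.2.1 ≠ 0) (hr : 1 - p.1 * ‖p.2.2‖ ≠ 0) :
    ContinuousAt (fun p : ℝ × Eu 3 × Eu 5 => P0 p.1 p.2.1 p.2.2) p := by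
  unfold P0
  refine continuous_jn.continuousAt.comp
    (f := fun p : ℝ × Eu 3 × Eu 5 => (((1 - p.1 * ‖p.2.1‖) * (‖p.2.1‖ ^ 2)⁻¹) • rA p.2.1,
      (1 - p.1 * ‖p.2.2‖)⁻¹ • p.2.2)) ?_
  exact (cA' ha).prodMk (((cB p).inv₀ hr).smul
    (continuous_snd.comp continuous_snd).continuousAt)

lemma cP1 {p : ℝ × Eu 3 × Eu 5} (hb : p.2.2 ≠ 0) (hr : 1 - p.1 * ‖p.2.1‖ ≠ 0) :
    ContinuousAt (fun p : ℝ × Eu 3 × Eu 5 => P1 p.1 p.2.1 p.2.2) p := by
  unfold P1
  refine continuous_jn.continuousAt.comp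
    (f := fun p : ℝ × Eu 3 × Eu 5 => ((1 - p.1 * ‖p.2.1‖)⁻¹ • p.2.1,
      ((1 - p.1 * ‖p.2.2‖) * (‖p.2.2‖ ^ 2)⁻¹) • rB p.2.2)) ?_
  exact (((cA p).inv₀ hr).smul
    (continuous_fst.comp continuous_snd).continuousAt).prodMk (cB' hb)

lemma cP2 {p : ℝ × Eu 3 × Eu 5} (ha : p.2.1 ≠ 0) (hb : p.2.2 ≠ 0) :
    ContinuousAt (fun p : ℝ × Eu 3 × Eu 5 => P2 p.1 p.2.1 p.2.2) p := by
  unfold P2
  refine continuous_jn.continuousAt.comp
    (f := fun p : ℝ × Eu 3 × Eu 5 => (((1 - p.1 * ‖p.2.1‖) * (‖p.2.1‖ ^ 2)⁻¹) • rA p.2.1,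
      ((1 - p.1 * ‖p.2.2‖) * (‖p.2.2‖ ^ 2)⁻¹) • rB p.2.2)) ?_
  exact (cA' ha).prodMk (cB' hb)

include hG hc in
lemma H1_cont : ContinuousOn (fun p : ℝ × Eu 3 × Eu 5 => H1 G p.1 p.2.1 p.2.2)
    (Icc 0 1 ×ˢ bd') := by
  rintro ⟨t, a, b⟩ ⟨ht, hp⟩
  change max (‖a‖) (‖b‖) = 1 at hp
  apply ContinuousAt.continuousWithinAt
  by_cases hb : b = 0
  · have ha : a ≠ 0 := by
      rintro rfl
      simp [hb] at hp
    have hr : 1 - t * ‖b‖ ≠ 0 := by simp [hb]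
    have h1 : ∀ᶠ p : ℝ × Eu 3 × Eu 5 in 𝓝 (t, a, b), p.2.1 ≠ 0 ∧ 1 - p.1 * ‖p.2.2‖ ≠ 0 := by
      apply Filter.Eventually.and
      · exact (continuous_snd.fst.continuousAt (x := (t, a, b))).eventually_ne ha
      · have : ContinuousAt (fun p : ℝ × Eu 3 × Eu 5 => 1 - p.1 * ‖p.2.2‖) (t, a, b) := by fun_prop
        exact this.eventually_ne hr
    have h2 : (fun p : ℝ × Eu 3 × Eu 5 => G 0 (P0 p.1 p.2.1 p.2.2)) =ᶠ[𝓝 (t, a, b)]
        (fun p : ℝ × Eu 3 × Eu 5 => H1 G p.1 p.2.1 p.2.2) := by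
      filter_upwards [h1] with p hp
      exact (H1_eq0 G hc hp.1 hp.2).symm
    refine ContinuousAt.congr ?_ h2
    exact (hG 0).continuousAt.comp (f := fun p : ℝ × Eu 3 × Eu 5 => P0 p.1 p.2.1 p.2.2)
      (cP0 (p := (t, a, b)) ha hr)
  · by_cases ha : a = 0
    · have hr : 1 - t * ‖a‖ ≠ 0 := by simp [ha]
      have h1 : ∀ᶠ p : ℝ × Eu 3 × Eu 5 in 𝓝 (t, a, b), p.2.2 ≠ 0 ∧ 1 - p.1 * ‖p.2.1‖ ≠ 0 := by
        apply Filter.Eventually.and
        · exact (continuous_snd.snd.continuousAt (x := (t, a, b))).eventually_ne hb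
        · have : ContinuousAt (fun p : ℝ × Eu 3 × Eu 5 => 1 - p.1 * ‖p.2.1‖) (t, a, b) := by
            fun_prop
          exact this.eventually_ne hr
      have h2 : (fun p : ℝ × Eu 3 × Eu 5 => G 1 (P1 p.1 p.2.1 p.2.2)) =ᶠ[𝓝 (t, a, b)]
          (fun p : ℝ × Eu 3 × Eu 5 => H1 G p.1 p.2.1 p.2.2) := by
        filter_upwards [h1] with p hp
        exact (H1_eq1 G hc hp.1 hp.2).symm
      refine ContinuousAt.congr ?_ h2
      exact (hG 1).continuousAt.comp (f := fun p : ℝ × Eu 3 × Eu 5 => P1 p.1 p.2.1 p.2.2)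
        (cP1 (p := (t, a, b)) hb hr)
    · have h1 : ∀ᶠ p : ℝ × Eu 3 × Eu 5 in 𝓝 (t, a, b), p.2.1 ≠ 0 ∧ p.2.2 ≠ 0 := by
        apply Filter.Eventually.and
        · exact (continuous_snd.fst.continuousAt (x := (t, a, b))).eventually_ne ha
        · exact (continuous_snd.snd.continuousAt (x := (t, a, b))).eventually_ne hb
      have h2 : (fun p : ℝ × Eu 3 × Eu 5 => G 2 (P2 p.1 p.2.1 p.2.2)) =ᶠ[𝓝 (t, a, b)]
          (fun p : ℝ × Eu 3 × Eu 5 => H1 G p.1 p.2.1 p.2.2) := by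
        filter_upwards [h1] with p hp
        exact (H1_eq2 G hp.1 hp.2).symm
      refine ContinuousAt.congr ?_ h2
      exact (hG 2).continuousAt.comp (f := fun p : ℝ × Eu 3 × Eu 5 => P2 p.1 p.2.1 p.2.2)
        (cP2 (p := (t, a, b)) ha hb)

/-- at time one the value depends only on `b` if `|a| = 1` -/
lemma H1_one_a {a a' : Eu 3} (b : Eu 5) (ha : ‖a‖ = 1) (ha' : ‖a'‖ = 1) :
    H1 G 1 a b = H1 G 1 a' b := by
  have h1 : a ≠ 0 := by rintro rfl; simp at ha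
  have h2 : a' ≠ 0 := by rintro rfl; simp at ha'
  unfold H1
  by_cases hb : b = 0
  · rw [if_pos hb, if_pos hb]
    unfold P0
    rw [ha, ha']
    simp
  · rw [if_neg hb, if_neg h1, if_neg hb, if_neg h2]
    unfold P2
    rw [ha, ha']
    simp

/-- at time one the value depends only on `a` if `|b| = 1` -/
lemma H1_one_b (a : Eu 3) {b b' : Eu 5} (hb : ‖b‖ = 1) (hb' : ‖b'‖ = 1) :
    H1 G 1 a b = H1 G 1 a b' := by
  have h1 : b ≠ 0 := by rintro rfl; simp at hb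
  have h2 : b' ≠ 0 := by rintro rfl; simp at hb'
  unfold H1
  by_cases ha : a = 0
  · rw [if_neg h1, if_pos ha, if_neg h2, if_pos ha]
    unfold P1
    rw [hb, hb']
    simp
  · rw [if_neg h1, if_neg ha, if_neg h2, if_neg ha]
    unfold P2
    rw [hb, hb']
    simp

end

theorem taskNull : TaskNull := by
  classical
  intro Y _ h3 h5 G hG hc
  have h1c := H1_cont G hG hc
  obtain ⟨ea, hea⟩ : ∃ a : Eu 3, ‖a‖ = 1 := ⟨EuclideanSpace.single 0 1, by simp⟩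
  obtain ⟨eb, heb⟩ : ∃ b : Eu 5, ‖b‖ = 1 := ⟨EuclideanSpace.single 0 1, by simp⟩
  obtain ⟨y1, hy1⟩ : ∃ y1, y1 = H1 G 1 ea eb := ⟨_, rfl⟩
  -- the map on the ball in `ℝ³`
  obtain ⟨A, hAc, hA0, hA1, hAt⟩ := null_rel ⟨ea, hea⟩ h3 (fun a => H1 G 1 a eb) (by
      refine h1c.comp (f := fun a : Eu 3 => ((1 : ℝ), a, eb)) (by fun_prop) ?_
      intro a ha
      refine ⟨⟨zero_le_one, le_rfl⟩, ?_⟩
      change max (‖a‖) (‖eb‖) = 1
      rw [heb]
      exact max_eq_right (mem_closedBall_zero_iff.1 ha)) y1 (by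
      intro a ha
      change H1 G 1 a eb = y1
      rw [hy1]
      exact H1_one_a G eb ha hea)
  obtain ⟨B, hBc, hB0, hB1, hBt⟩ := null_rel ⟨eb, heb⟩ h5 (fun b => H1 G 1 ea b) (by
      refine h1c.comp (f := fun b : Eu 5 => ((1 : ℝ), ea, b)) (by fun_prop) ?_
      intro b hb
      refine ⟨⟨zero_le_one, le_rfl⟩, ?_⟩
      change max (‖ea‖) (‖b‖) = 1
      rw [hea]
      exact max_eq_left (mem_closedBall_zero_iff.1 hb)) y1 (by
      intro b hb
      change H1 G 1 ea b = y1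
      rw [hy1]
      exact H1_one_b G ea hb heb)
  -- the second homotopy
  let H2 : ℝ → Eu 3 → Eu 5 → Y := fun t a b => if ‖a‖ = 1 then B t b else A t a
  have hcl : IsClosed (bd' : Set (Eu 3 × Eu 5)) := by
    unfold bd'
    exact isClosed_eq (by fun_prop) continuous_const
  have h2c : ContinuousOn (fun p : ℝ × Eu 3 × Eu 5 => H2 p.1 p.2.1 p.2.2) (Icc 0 1 ×ˢ bd') := by
    have hcov : (Icc (0 : ℝ) 1 ×ˢ (bd' : Set (Eu 3 × Eu 5))) =
        (Icc 0 1 ×ˢ (bd' ∩ {p | ‖p.1‖ = 1})) ∪ (Icc 0 1 ×ˢ (bd' ∩ {p | ‖p.2‖ = 1})) := by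
      rw [← Set.prod_union, ← Set.inter_union_distrib_left]
      congr 1
      rw [Set.inter_eq_left.2]
      rintro ⟨a, b⟩ hp
      change max (‖a‖) (‖b‖) = 1 at hp
      rcases max_choice (‖a‖) (‖b‖) with h | h
      · left; change ‖a‖ = 1; rw [← h, hp]
      · right; change ‖b‖ = 1; rw [← h, hp]
    rw [hcov]
    refine ContinuousOn.union_of_isClosed ?_ ?_ ?_ ?_
    · have : ContinuousOn (fun p : ℝ × Eu 3 × Eu 5 => B p.1 p.2.2)
          (Icc 0 1 ×ˢ (bd' ∩ {p | ‖p.1‖ = 1})) := by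
        refine hBc.comp (f := fun p : ℝ × Eu 3 × Eu 5 => (p.1, p.2.2)) (by fun_prop) ?_
        rintro ⟨t, a, b⟩ ⟨ht, hp, -⟩
        refine ⟨ht, mem_closedBall_zero_iff.2 ?_⟩
        change max (‖a‖) (‖b‖) = 1 at hp
        rw [← hp]
        exact le_max_right _ _
      refine this.congr ?_
      rintro ⟨t, a, b⟩ ⟨ht, hp, ha⟩
      change (if ‖a‖ = 1 then B t b else A t a) = B t b
      exact if_pos ha
    · have : ContinuousOn (fun p : ℝ × Eu 3 × Eu 5 => A p.1 p.2.1)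
          (Icc 0 1 ×ˢ (bd' ∩ {p | ‖p.2‖ = 1})) := by
        refine hAc.comp (f := fun p : ℝ × Eu 3 × Eu 5 => (p.1, p.2.1)) (by fun_prop) ?_
        rintro ⟨t, a, b⟩ ⟨ht, hp, -⟩
        refine ⟨ht, mem_closedBall_zero_iff.2 ?_⟩
        change max (‖a‖) (‖b‖) = 1 at hp
        rw [← hp]
        exact le_max_left _ _
      refine this.congr ?_
      rintro ⟨t, a, b⟩ ⟨ht, hp, hb⟩
      change (if ‖a‖ = 1 then B t b else A t a) = A t a
      by_cases ha : ‖a‖ = 1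
      · rw [if_pos ha, hBt t ht b hb, hAt t ht a ha]
      · rw [if_neg ha]
    · exact isClosed_Icc.prod (hcl.inter (isClosed_eq (by fun_prop) continuous_const))
    · exact isClosed_Icc.prod (hcl.inter (isClosed_eq (by fun_prop) continuous_const))
  have h12 : ∀ a b, (a, b) ∈ (bd' : Set (Eu 3 × Eu 5)) → H1 G 1 a b = H2 0 a b := by
    intro a b hp
    change max (‖a‖) (‖b‖) = 1 at hp
    change H1 G 1 a b = if ‖a‖ = 1 then B 0 b else A 0 a
    by_cases ha : ‖a‖ = 1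
    · rw [if_pos ha, hB0 b (by rw [← hp]; exact le_max_right _ _)]
      exact H1_one_a G b ha hea
    · rw [if_neg ha, hA0 a (by rw [← hp]; exact le_max_left _ _)]
      have hb : ‖b‖ = 1 := by
        rcases max_choice (‖a‖) (‖b‖) with h | h
        · exact absurd (by rw [← h, hp]) ha
        · rw [← h, hp]
      exact H1_one_b G a hb heb
  -- the concatenation
  let K : ℝ → Eu 3 → Eu 5 → Y := fun t a b => if t ≤ 1 / 2 then H1 G (2 * t) a b
    else H2 (2 * t - 1) a b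
  have hKc : ContinuousOn (fun p : ℝ × Eu 3 × Eu 5 => K p.1 p.2.1 p.2.2) (Icc 0 1 ×ˢ bd') := by
    have hcov : (Icc (0 : ℝ) 1 ×ˢ (bd' : Set (Eu 3 × Eu 5))) =
        (Icc 0 (1 / 2) ×ˢ bd') ∪ (Icc (1 / 2) 1 ×ˢ bd') := by
      rw [← Set.union_prod, Set.Icc_union_Icc_eq_Icc (by norm_num) (by norm_num)]
    rw [hcov]
    refine ContinuousOn.union_of_isClosed ?_ ?_ (isClosed_Icc.prod hcl) (isClosed_Icc.prod hcl)
    · have : ContinuousOn (fun p : ℝ × Eu 3 × Eu 5 => H1 G (2 * p.1) p.2.1 p.2.2)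
          (Icc 0 (1 / 2) ×ˢ bd') := by
        refine h1c.comp (f := fun p : ℝ × Eu 3 × Eu 5 => (2 * p.1, p.2.1, p.2.2)) (by fun_prop) ?_
        rintro ⟨t, a, b⟩ ⟨ht, hp⟩
        exact ⟨⟨by linarith [ht.1], by linarith [ht.2]⟩, hp⟩
      refine this.congr ?_
      rintro ⟨t, a, b⟩ ⟨ht, hp⟩
      change (if t ≤ 1 / 2 then H1 G (2 * t) a b else H2 (2 * t - 1) a b) = H1 G (2 * t) a b
      exact if_pos ht.2
    · have : ContinuousOn (fun p : ℝ × Eu 3 × Eu 5 => H2 (2 * p.1 - 1) p.2.1 p.2.2)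
          (Icc (1 / 2) 1 ×ˢ bd') := by
        refine h2c.comp (f := fun p : ℝ × Eu 3 × Eu 5 => (2 * p.1 - 1, p.2.1, p.2.2))
          (by fun_prop) ?_
        rintro ⟨t, a, b⟩ ⟨ht, hp⟩
        exact ⟨⟨by linarith [ht.1], by linarith [ht.2]⟩, hp⟩
      refine this.congr ?_
      rintro ⟨t, a, b⟩ ⟨ht, hp⟩
      change (if t ≤ 1 / 2 then H1 G (2 * t) a b else H2 (2 * t - 1) a b) = H2 (2 * t - 1) a b
      by_cases h : t ≤ 1 / 2
      · have h' : t = 1 / 2 := le_antisymm h ht.1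
        rw [if_pos h, h']
        norm_num
        exact h12 a b hp
      · rw [if_neg h]
  have hbd : ∀ w ∈ bdry, (aa w, bb w) ∈ (bd' : Set (Eu 3 × Eu 5)) := by
    intro w hw
    change max (na w) (nb w) = 1 at hw
    change max (‖aa w‖) (‖bb w‖) = 1
    rw [na_eq, nb_eq] at hw
    have h0 := norm_nonneg (aa w)
    have h0' := norm_nonneg (bb w)
    rcases le_total (‖aa w‖) (‖bb w‖) with h | h
    · rw [max_eq_right h]
      rw [max_eq_right (pow_le_pow_left₀ h0 h 2)] at hw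
      nlinarith
    · rw [max_eq_left h]
      rw [max_eq_left (pow_le_pow_left₀ h0' h 2)] at hw
      nlinarith
  refine ⟨fun t w => K t (aa w) (bb w), y1, ?_, ?_, ?_⟩
  · refine hKc.comp (f := fun p : ℝ × V => (p.1, aa p.2, bb p.2)) ?_ ?_
    · apply Continuous.continuousOn
      have := continuous_aa
      have := continuous_bb
      fun_prop
    · rintro ⟨t, w⟩ ⟨ht, hw⟩
      exact ⟨ht, hbd w hw⟩
  · intro c w hw hcw
    change K 0 (aa w) (bb w) = G c (fromW (Sum.inr c) w)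
    have hK0 : K 0 (aa w) (bb w) = H1 G 0 (aa w) (bb w) := by
      change (if (0 : ℝ) ≤ 1 / 2 then H1 G (2 * 0) (aa w) (bb w) else H2 (2 * 0 - 1) (aa w) (bb w)) = _
      rw [if_pos (by norm_num)]
      norm_num
    rw [hK0]
    have hP0 : P0 0 (aa w) (bb w) = invA w := by
      conv_rhs => rw [← jn_aa_bb w, invA_jn]
      simp [P0]
    have hP1 : P1 0 (aa w) (bb w) = invB w := by
      conv_rhs => rw [← jn_aa_bb w, invB_jn]
      simp [P1]
    have hP2 : P2 0 (aa w) (bb w) = invA (invB w) := by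
      conv_rhs => rw [← jn_aa_bb w, invB_jn, invA_jn]
      simp [P2]
    fin_cases c
    · have h : na w ≠ 0 := hcw
      have ha : aa w ≠ 0 := by
        intro h0
        apply h
        rw [na_eq, h0]
        simp
      have := H1_eq0 G hc (t := 0) (a := aa w) (b := bb w) ha (by simp)
      rw [this, hP0]
      rfl
    · have h : nb w ≠ 0 := hcw
      have hb : bb w ≠ 0 := by
        intro h0
        apply h
        rw [nb_eq, h0]
        simp
      have := H1_eq1 G hc (t := 0) (a := aa w) (b := bb w) hb (by simp)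
      rw [this, hP1]
      rfl
    · have h : na w ≠ 0 ∧ nb w ≠ 0 := hcw
      have ha : aa w ≠ 0 := by
        intro h0
        apply h.1
        rw [na_eq, h0]
        simp
      have hb : bb w ≠ 0 := by
        intro h0
        apply h.2
        rw [nb_eq, h0]
        simp
      rw [H1_eq2 G ha hb, hP2]
      rfl
  · intro w hw
    change K 1 (aa w) (bb w) = y1
    change (if (1 : ℝ) ≤ 1 / 2 then H1 G (2 * 1) (aa w) (bb w) else H2 (2 * 1 - 1) (aa w) (bb w)) = y1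
    rw [if_neg (by norm_num)]
    norm_num
    change (if ‖aa w‖ = 1 then B 1 (bb w) else A 1 (aa w)) = y1
    split_ifs
    · exact hB1 _
    · exact hA1 _

end Pool.Agent.TH656.SD
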