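import Pool.Agent.TH196.Loew.Defs

set_option autoImplicit false
open Complex
open scoped ContDiff

namespace TH656.LW

open Pool.Agent.TH196.Loew

/-- `12800 (X² + Y²)^7 Re G0(1,W)` -/
def Pre (X Y : ℝ) : ℝ := (-18752)*X^14 + 89536*X^13*Y^1 + (-74048)*X^12*Y^2 + (-1423936)*X^11*Y^3 + 255360*X^10*Y^4 + 2801536*X^9*Y^5 + 746368*X^8*Y^6 + (-2745472)*X^7*Y^7 + 915904*X^6*Y^8 + 28864*X^5*Y^9 + 556992*X^4*Y^10 + 205504*X^3*Y^11 + 89600*X^2*Y^12 + (-2560)*X^1*Y^13 + 12800*Y^14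

/-- `12800 (X² + Y²)^7 Im G0(1,W)` -/
def Pim (X Y : ℝ) : ℝ := 7168*X^14 + (-93184)*X^13*Y^1 + 326656*X^12*Y^2 + 926720*X^11*Y^3 + (-899072)*X^10*Y^4 + (-915456)*X^9*Y^5 + (-1648640)*X^8*Y^6 + (-1112064)*X^7*Y^7 + 3072*X^6*Y^8 + 762880*X^5*Y^9 + 420864*X^4*Y^10 + (-60416)*X^3*Y^11 + (-12288)*X^2*Y^12

/-- one mode, denominators cleared -/
theorem tm (w v : ℂ) (hw : w ≠ 0) (hv : v ≠ 0) (j k : ℤ) (c : ℂ) :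
    c * (1 : ℂ) ^ j * (w / v) ^ k * ((I * j - k * (2 + w / v + (w / v)⁻¹) / 8) ^ 2
      + k * (w / v - (w / v)⁻¹) * (2 + w / v + (w / v)⁻¹) / 64) * (12800 * (w * v) ^ 7)
    = 200 * c * (w ^ (5 + k) * v ^ (5 - k)) * ((8 * I * j * (w * v) - k * (w + v) ^ 2) ^ 2
      + k * (w ^ 2 - v ^ 2) * (w + v) ^ 2) := by
  have h1 : w ^ (5 + k) = w ^ k * w ^ 5 := by
    rw [add_comm, zpow_add₀ hw]; norm_cast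
  have h2 : v ^ (5 - k) = v ^ 5 / v ^ k := by
    rw [zpow_sub₀ hv]; norm_cast
  rw [h1, h2, div_zpow, one_zpow]
  have hvk : v ^ k ≠ 0 := zpow_ne_zero k hv
  field_simp
  ring

theorem G0_mul (w v : ℂ) (hw : w ≠ 0) (hv : v ≠ 0) :
    G0 1 (w / v) * (12800 * (w * v) ^ 7) = 12800 * (w * v) ^ 7 +
      ((-1778) + (0)*I)*(w^6*v^4)*((8*I*(0)*(w*v) - (1)*(w+v)^2)^2 + (1)*(w^2-v^2)*(w+v)^2) +
      ((-1778) + (0)*I)*(w^4*v^6)*((8*I*(0)*(w*v) - (-1)*(w+v)^2)^2 + (-1)*(w^2-v^2)*(w+v)^2) +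
      ((236) + (0)*I)*(w^7*v^3)*((8*I*(0)*(w*v) - (2)*(w+v)^2)^2 + (2)*(w^2-v^2)*(w+v)^2) +
      ((236) + (0)*I)*(w^3*v^7)*((8*I*(0)*(w*v) - (-2)*(w+v)^2)^2 + (-2)*(w^2-v^2)*(w+v)^2) +
      ((-24) + (0)*I)*(w^8*v^2)*((8*I*(0)*(w*v) - (3)*(w+v)^2)^2 + (3)*(w^2-v^2)*(w+v)^2) +
      ((-24) + (0)*I)*(w^2*v^8)*((8*I*(0)*(w*v) - (-3)*(w+v)^2)^2 + (-3)*(w^2-v^2)*(w+v)^2) +
      ((4) + (0)*I)*(w^9*v^1)*((8*I*(0)*(w*v) - (4)*(w+v)^2)^2 + (4)*(w^2-v^2)*(w+v)^2) +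
      ((4) + (0)*I)*(w^1*v^9)*((8*I*(0)*(w*v) - (-4)*(w+v)^2)^2 + (-4)*(w^2-v^2)*(w+v)^2) +
      ((-7) + (-34)*I)*(w^6*v^4)*((8*I*(1)*(w*v) - (1)*(w+v)^2)^2 + (1)*(w^2-v^2)*(w+v)^2) +
      ((-7) + (34)*I)*(w^4*v^6)*((8*I*(-1)*(w*v) - (-1)*(w+v)^2)^2 + (-1)*(w^2-v^2)*(w+v)^2) +
      ((7) + (34)*I)*(w^4*v^6)*((8*I*(1)*(w*v) - (-1)*(w+v)^2)^2 + (-1)*(w^2-v^2)*(w+v)^2) +
      ((7) + (-34)*I)*(w^6*v^4)*((8*I*(-1)*(w*v) - (1)*(w+v)^2)^2 + (1)*(w^2-v^2)*(w+v)^2) +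
      ((-25) + (-32)*I)*(w^7*v^3)*((8*I*(1)*(w*v) - (2)*(w+v)^2)^2 + (2)*(w^2-v^2)*(w+v)^2) +
      ((-25) + (32)*I)*(w^3*v^7)*((8*I*(-1)*(w*v) - (-2)*(w+v)^2)^2 + (-2)*(w^2-v^2)*(w+v)^2) +
      ((25) + (32)*I)*(w^3*v^7)*((8*I*(1)*(w*v) - (-2)*(w+v)^2)^2 + (-2)*(w^2-v^2)*(w+v)^2) +
      ((25) + (-32)*I)*(w^7*v^3)*((8*I*(-1)*(w*v) - (2)*(w+v)^2)^2 + (2)*(w^2-v^2)*(w+v)^2) +
      ((-12) + (0)*I)*(w^8*v^2)*((8*I*(1)*(w*v) - (3)*(w+v)^2)^2 + (3)*(w^2-v^2)*(w+v)^2) +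
      ((-12) + (0)*I)*(w^2*v^8)*((8*I*(-1)*(w*v) - (-3)*(w+v)^2)^2 + (-3)*(w^2-v^2)*(w+v)^2) +
      ((12) + (0)*I)*(w^2*v^8)*((8*I*(1)*(w*v) - (-3)*(w+v)^2)^2 + (-3)*(w^2-v^2)*(w+v)^2) +
      ((12) + (0)*I)*(w^8*v^2)*((8*I*(-1)*(w*v) - (3)*(w+v)^2)^2 + (3)*(w^2-v^2)*(w+v)^2) +
      ((15) + (0)*I)*(w^9*v^1)*((8*I*(1)*(w*v) - (4)*(w+v)^2)^2 + (4)*(w^2-v^2)*(w+v)^2) +
      ((15) + (0)*I)*(w^1*v^9)*((8*I*(-1)*(w*v) - (-4)*(w+v)^2)^2 + (-4)*(w^2-v^2)*(w+v)^2) +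
      ((-15) + (0)*I)*(w^1*v^9)*((8*I*(1)*(w*v) - (-4)*(w+v)^2)^2 + (-4)*(w^2-v^2)*(w+v)^2) +
      ((-15) + (0)*I)*(w^9*v^1)*((8*I*(-1)*(w*v) - (4)*(w+v)^2)^2 + (4)*(w^2-v^2)*(w+v)^2) +
      ((1) + (-7)*I)*(w^10*v^0)*((8*I*(1)*(w*v) - (5)*(w+v)^2)^2 + (5)*(w^2-v^2)*(w+v)^2) +
      ((1) + (7)*I)*(w^0*v^10)*((8*I*(-1)*(w*v) - (-5)*(w+v)^2)^2 + (-5)*(w^2-v^2)*(w+v)^2) +
      ((-1) + (7)*I)*(w^0*v^10)*((8*I*(1)*(w*v) - (-5)*(w+v)^2)^2 + (-5)*(w^2-v^2)*(w+v)^2) +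
      ((-1) + (-7)*I)*(w^10*v^0)*((8*I*(-1)*(w*v) - (5)*(w+v)^2)^2 + (5)*(w^2-v^2)*(w+v)^2) +
      ((0) + (-1)*I)*(w^9*v^1)*((8*I*(2)*(w*v) - (4)*(w+v)^2)^2 + (4)*(w^2-v^2)*(w+v)^2) +
      ((0) + (1)*I)*(w^1*v^9)*((8*I*(-2)*(w*v) - (-4)*(w+v)^2)^2 + (-4)*(w^2-v^2)*(w+v)^2) +
      ((0) + (-1)*I)*(w^1*v^9)*((8*I*(2)*(w*v) - (-4)*(w+v)^2)^2 + (-4)*(w^2-v^2)*(w+v)^2) +
      ((0) + (1)*I)*(w^9*v^1)*((8*I*(-2)*(w*v) - (4)*(w+v)^2)^2 + (4)*(w^2-v^2)*(w+v)^2) +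
      ((0) + (-3)*I)*(w^10*v^0)*((8*I*(2)*(w*v) - (5)*(w+v)^2)^2 + (5)*(w^2-v^2)*(w+v)^2) +
      ((0) + (3)*I)*(w^0*v^10)*((8*I*(-2)*(w*v) - (-5)*(w+v)^2)^2 + (-5)*(w^2-v^2)*(w+v)^2) +
      ((0) + (-3)*I)*(w^0*v^10)*((8*I*(2)*(w*v) - (-5)*(w+v)^2)^2 + (-5)*(w^2-v^2)*(w+v)^2) +
      ((0) + (3)*I)*(w^10*v^0)*((8*I*(-2)*(w*v) - (5)*(w+v)^2)^2 + (5)*(w^2-v^2)*(w+v)^2) := by
  have e : ∀ m : ℤ × ℤ × ℂ, m.2.2 * (1 : ℂ) ^ m.1 * (w / v) ^ m.2.1 *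
      ((I * m.1 - m.2.1 * (2 + w / v + (w / v)⁻¹) / 8) ^ 2
        + m.2.1 * (w / v - (w / v)⁻¹) * (2 + w / v + (w / v)⁻¹) / 64) * (12800 * (w * v) ^ 7)
      = 200 * m.2.2 * (w ^ (5 + m.2.1) * v ^ (5 - m.2.1)) *
        ((8 * I * m.1 * (w * v) - m.2.1 * (w + v) ^ 2) ^ 2
        + m.2.1 * (w ^ 2 - v ^ 2) * (w + v) ^ 2) := fun m => tm w v hw hv m.1 m.2.1 m.2.2
  rw [G0, add_mul, one_mul, ← List.sum_map_mul_right]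
  simp only [e]
  simp only [modes, halfModes, List.flatMap_cons, List.flatMap_nil, List.map_cons, List.map_nil,
    List.sum_cons, List.sum_nil, List.cons_append, List.nil_append, List.append_nil]
  norm_num [zpow_ofNat, zpow_neg]
  ring

theorem key (X Y : ℝ) (h0 : X ≠ 0 ∨ Y ≠ 0) :
    G0 1 ((X + Y * I) / (X - Y * I)) * ((12800 * (X ^ 2 + Y ^ 2) ^ 7 : ℝ) : ℂ) =
      ((Pre X Y : ℝ) : ℂ) + ((Pim X Y : ℝ) : ℂ) * I := by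
  have hw : ((X : ℂ) + Y * I) ≠ 0 := by
    intro h
    have h1 := congrArg Complex.re h
    have h2 := congrArg Complex.im h
    simp at h1 h2
    rcases h0 with h0 | h0
    · exact h0 h1
    · exact h0 h2
  have hv : ((X : ℂ) - Y * I) ≠ 0 := by
    intro h
    have h1 := congrArg Complex.re h
    have h2 := congrArg Complex.im h
    simp at h1 h2
    rcases h0 with h0 | h0
    · exact h0 h1
    · exact h0 h2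
  have hI : (I : ℂ) ^ 2 = -1 := I_sq
  have hn : (((X ^ 2 + Y ^ 2 : ℝ)) : ℂ) = ((X : ℂ) + Y * I) * ((X : ℂ) - Y * I) := by
    push_cast
    linear_combination ((Y : ℂ) ^ 2) * hI
  have h := G0_mul _ _ hw hv
  have e1 : ((12800 * (X ^ 2 + Y ^ 2) ^ 7 : ℝ) : ℂ) =
      12800 * (((X : ℂ) + Y * I) * ((X : ℂ) - Y * I)) ^ 7 := by
    rw [← hn]; push_cast; ring
  rw [e1, h]
  simp only [Pre, Pim]
  push_cast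
  generalize (X : ℂ) = X
  generalize (Y : ℂ) = Y
  linear_combination ((-12800)*Y^14 + 12800*Y^14*I^2 + (-12800)*Y^14*I^4 + 12800*Y^14*I^6 + (-12800)*Y^14*I^8 + 12800*Y^14*I^10 + (-12800)*Y^14*I^12 + 2560*X^1*Y^13 + (-2560)*X^1*Y^13*I^2 + 2560*X^1*Y^13*I^4 + (-2560)*X^1*Y^13*I^6 + 2560*X^1*Y^13*I^8 + (-2560)*X^1*Y^13*I^10 + 2560*X^1*Y^13*I^12 + (-2560)*X^1*Y^13*I^14 + (-89600)*X^2*Y^12 + 12288*X^2*Y^12*I^1 + 89600*X^2*Y^12*I^2 + (-12288)*X^2*Y^12*I^3 + (-89600)*X^2*Y^12*I^4 + 12288*X^2*Y^12*I^5 + 89600*X^2*Y^12*I^6 + (-12288)*X^2*Y^12*I^7 + (-89600)*X^2*Y^12*I^8 + 12288*X^2*Y^12*I^9 + 89600*X^2*Y^12*I^10 + (-12288)*X^2*Y^12*I^11 + (-205504)*X^3*Y^11 + 60416*X^3*Y^11*I^1 + 205504*X^3*Y^11*I^2 + (-60416)*X^3*Y^11*I^3 + (-205504)*X^3*Y^11*I^4 + 60416*X^3*Y^11*I^5 + 205504*X^3*Y^11*I^6 + (-60416)*X^3*Y^11*I^7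 + (-205504)*X^3*Y^11*I^8 + 60416*X^3*Y^11*I^9 + 205504*X^3*Y^11*I^10 + (-60416)*X^3*Y^11*I^11 + (-205824)*X^3*Y^11*I^12 + (-556992)*X^4*Y^10 + (-420864)*X^4*Y^10*I^1 + 556992*X^4*Y^10*I^2 + 420864*X^4*Y^10*I^3 + (-556992)*X^4*Y^10*I^4 + (-420864)*X^4*Y^10*I^5 + 556992*X^4*Y^10*I^6 + 420864*X^4*Y^10*I^7 + (-556992)*X^4*Y^10*I^8 + (-420864)*X^4*Y^10*I^9 + (-28864)*X^5*Y^9 + (-762880)*X^5*Y^9*I^1 + 28864*X^5*Y^9*I^2 + 762880*X^5*Y^9*I^3 + (-28864)*X^5*Y^9*I^4 + (-762880)*X^5*Y^9*I^5 + 28864*X^5*Y^9*I^6 + 762880*X^5*Y^9*I^7 + (-28864)*X^5*Y^9*I^8 + (-762880)*X^5*Y^9*I^9 + (-136704)*X^5*Y^9*I^10 + (-915904)*X^6*Y^8 + (-3072)*X^6*Y^8*I^1 + 915904*X^6*Y^8*I^2 + 3072*X^6*Y^8*I^3 + (-915904)*X^6*Y^8*I^4 + (-3072)*X^6*Y^8*I^5 + 915904*X^6*Y^8*I^6 + 3072*X^6*Y^8*I^7 + 2745472*X^7*Y^7 + 1112064*X^7*Y^7*I^1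 + (-2745472)*X^7*Y^7*I^2 + (-1112064)*X^7*Y^7*I^3 + 2745472*X^7*Y^7*I^4 + 1112064*X^7*Y^7*I^5 + (-2745472)*X^7*Y^7*I^6 + (-1112064)*X^7*Y^7*I^7 + 821248*X^7*Y^7*I^8 + (-746368)*X^8*Y^6 + 1648640*X^8*Y^6*I^1 + 746368*X^8*Y^6*I^2 + (-1648640)*X^8*Y^6*I^3 + (-746368)*X^8*Y^6*I^4 + 1648640*X^8*Y^6*I^5 + (-2801536)*X^9*Y^5 + 915456*X^9*Y^5*I^1 + 2801536*X^9*Y^5*I^2 + (-915456)*X^9*Y^5*I^3 + (-2801536)*X^9*Y^5*I^4 + 915456*X^9*Y^5*I^5 + (-464384)*X^9*Y^5*I^6 + (-255360)*X^10*Y^4 + 899072*X^10*Y^4*I^1 + 255360*X^10*Y^4*I^2 + (-899072)*X^10*Y^4*I^3 + 1423936*X^11*Y^3 + (-926720)*X^11*Y^3*I^1 + (-1423936)*X^11*Y^3*I^2 + 926720*X^11*Y^3*I^3 + 56320*X^11*Y^3*I^4 + 74048*X^12*Y^2 + (-326656)*X^12*Y^2*I^1 + (-89536)*X^13*Y^1 + 93184*X^13*Y^1*I^1 + (-68096)*X^13*Y^1*I^2) * hI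

theorem re_eq (X Y : ℝ) (h0 : X ≠ 0 ∨ Y ≠ 0) :
    (G0 1 ((X + Y * I) / (X - Y * I))).re * (12800 * (X ^ 2 + Y ^ 2) ^ 7) = Pre X Y := by
  have h := congrArg Complex.re (key X Y h0)
  rw [mul_comm, Complex.re_ofReal_mul] at h
  simpa [mul_comm] using h

theorem im_eq (X Y : ℝ) (h0 : X ≠ 0 ∨ Y ≠ 0) :
    (G0 1 ((X + Y * I) / (X - Y * I))).im * (12800 * (X ^ 2 + Y ^ 2) ^ 7) = Pim X Y := by
  have h := congrArg Complex.im (key X Y h0)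
  rw [mul_comm, Complex.im_ofReal_mul] at h
  simpa [mul_comm] using h

theorem n_pos (X Y : ℝ) (h0 : X ≠ 0 ∨ Y ≠ 0) : 0 < (X ^ 2 + Y ^ 2) ^ 7 := by
  have : 0 < X ^ 2 + Y ^ 2 := by
    rcases h0 with h0 | h0 <;> positivity
  positivity

theorem p_arc1_0 (a b : ℝ) (ha : 0 ≤ a) (hb : 0 ≤ b) (X Y : ℝ) (hX : X = (5)*a + (1)*b) (hY : Y = (-2)*a + (0)*b) :
    0 ≤ Pim X Y - 256 * (X ^ 2 + Y ^ 2) ^ 7 := by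
  have h : Pim X Y - 256 * (X ^ 2 + Y ^ 2) ^ 7 =
      109549912829696*a^14 + 443211258636800*a^13*b^1 + 695009320464640*a^12*b^2 + 611127827166208*a^11*b^3 + 347976296787712*a^10*b^4 + 137848954406400*a^9*b^5 + 39489312475392*a^8*b^6 + 8342534100992*a^7*b^7 + 1307915306240*a^6*b^8 + 151373256192*a^5*b^9 + 12708850432*a^4*b^10 + 748467200*a^3*b^11 + 29138176*a^2*b^12 + 670208*a^1*b^13 + 6912*b^14 := by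
    subst hX hY
    simp only [Pre, Pim]
    ring
  rw [h]
  positivity

theorem p_arc2_0 (a b : ℝ) (ha : 0 ≤ a) (hb : 0 ≤ b) (X Y : ℝ) (hX : X = (1)*a + (8)*b) (hY : Y = (0)*a + (5)*b) :
    0 ≤ -Pre X Y - 256 * (X ^ 2 + Y ^ 2) ^ 7 := by
  have h : -Pre X Y - 256 * (X ^ 2 + Y ^ 2) ^ 7 =
      18496*a^14 + 1623872*a^13*b^1 + 62968384*a^12*b^2 + 1563650368*a^11*b^3 + 33411267456*a^10*b^4 + 710485590656*a^9*b^5 + 13268448811392*a^8*b^6 + 188483837201024*a^7*b^7 + 1926732456970048*a^6*b^8 + 13929076361265216*a^5*b^9 + 70088392051895104*a^4*b^10 + 237797324225726528*a^3*b^11 + 509774709456630016*a^2*b^12 + 600136373467525632*a^1*b^13 + 264424805597734144*b^14 := by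
    subst hX hY
    simp only [Pre, Pim]
    ring
  rw [h]
  positivity

theorem p_arc3_0 (a b : ℝ) (ha : 0 ≤ a) (hb : 0 ≤ b) (X Y : ℝ) (hX : X = (8)*a + (1)*b) (hY : Y = (5)*a + (1)*b) :
    0 ≤ -Pim X Y - 256 * (X ^ 2 + Y ^ 2) ^ 7 := by
  have h : -Pim X Y - 256 * (X ^ 2 + Y ^ 2) ^ 7 =
      194482730852177664*a^14 + 618929531985160704*a^13*b^1 + 795024838865948160*a^12*b^2 + 582508796838190080*a^11*b^3 + 279474904765934592*a^10*b^4 + 94196955268460544*a^9*b^5 + 23190231591290880*a^8*b^6 + 4258129351680000*a^7*b^7 + 587980462141440*a^6*b^8 + 60899558940672*a^5*b^9 + 4664497201152*a^4*b^10 + 256455131136*a^3*b^11 + 9573482496*a^2*b^12 + 217251840*a^1*b^13 + 2260992*b^14 := by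
    subst hX hY
    simp only [Pre, Pim]
    ring
  rw [h]
  positivity

theorem p_arc4_0 (a b : ℝ) (ha : 0 ≤ a) (hb : 0 ≤ b) (X Y : ℝ) (hX : X = (1)*a + (-1)*b) (hY : Y = (1)*a + (5)*b) :
    0 ≤ Pre X Y - 256 * (X ^ 2 + Y ^ 2) ^ 7 := by
  have h : Pre X Y - 256 * (X ^ 2 + Y ^ 2) ^ 7 =
      1404928*a^14 + 54538240*a^13*b^1 + 886472704*a^12*b^2 + 11103420416*a^11*b^3 + 105870209024*a^10*b^4 + 654486499328*a^9*b^5 + 2608089612288*a^8*b^6 + 7762057101312*a^7*b^7 + 20728855449600*a^6*b^8 + 50621995028480*a^5*b^9 + 108314713358336*a^4*b^10 + 199422480957440*a^3*b^11 + 273163867033600*a^2*b^12 + 222612624265216*a^1*b^13 + 96992989069312*b^14 := by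
    subst hX hY
    simp only [Pre, Pim]
    ring
  rw [h]
  positivity

theorem p_arc4_1 (a b : ℝ) (ha : 0 ≤ a) (hb : 0 ≤ b) (X Y : ℝ) (hX : X = (-1)*a + (-5)*b) (hY : Y = (5)*a + (2)*b) :
    0 ≤ Pre X Y - 256 * (X ^ 2 + Y ^ 2) ^ 7 := by
  have h : Pre X Y - 256 * (X ^ 2 + Y ^ 2) ^ 7 =
      96992989069312*a^14 + 730870428448768*a^13*b^1 + 3085200037048320*a^12*b^2 + 10429257371849728*a^11*b^3 + 32135412047709184*a^10*b^4 + 81656514972643328*a^9*b^5 + 156800965279997952*a^8*b^6 + 213449150340005376*a^7*b^7 + 194437549356959744*a^6*b^8 + 116351320400135552*a^5*b^9 + 53484662675823104*a^4*b^10 + 26424535128779328*a^3*b^11 + 11233897473194688*a^2*b^12 + 2281151352484160*a^1*b^13 + 61298365733696*b^14 := by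
    subst hX hY
    simp only [Pre, Pim]
    ring
  rw [h]
  positivity

theorem arc1 (X Y : ℝ) (h0 : X ≠ 0 ∨ Y ≠ 0) (h1 : -(2 / 5) * X ≤ Y) (h2 : Y ≤ 0 * X) :
    (1 / 50 : ℝ) ≤ (G0 1 ((X + Y * I) / (X - Y * I))).im := by
  have hp := p_arc1_0 (((0)*X - (1)*Y)/2) (((5)*Y - (-2)*X)/2) (by linarith) (by linarith) X Y (by ring) (by ring)
  have hn := n_pos X Y h0
  have he := im_eq X Y h0
  by_contra hc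
  push Not at hc
  nlinarith

theorem arc2 (X Y : ℝ) (h0 : X ≠ 0 ∨ Y ≠ 0) (h1 : 0 * X ≤ Y) (h2 : Y ≤ 5 / 8 * X) :
    (G0 1 ((X + Y * I) / (X - Y * I))).re ≤ -(1 / 50 : ℝ) := by
  have hp := p_arc2_0 (((5)*X - (8)*Y)/5) (((1)*Y - (0)*X)/5) (by linarith) (by linarith) X Y (by ring) (by ring)
  have hn := n_pos X Y h0
  have he := re_eq X Y h0
  by_contra hc
  push Not at hc
  nlinarith

theorem arc3 (X Y : ℝ) (h0 : X ≠ 0 ∨ Y ≠ 0) (h1 : 5 / 8 * X ≤ Y) (h2 : Y ≤ 1 * X) :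
    (G0 1 ((X + Y * I) / (X - Y * I))).im ≤ -(1 / 50 : ℝ) := by
  have hp := p_arc3_0 (((1)*X - (1)*Y)/3) (((8)*Y - (5)*X)/3) (by linarith) (by linarith) X Y (by ring) (by ring)
  have hn := n_pos X Y h0
  have he := im_eq X Y h0
  by_contra hc
  push Not at hc
  nlinarith

theorem arc4 (X Y : ℝ) (h0 : X ≠ 0 ∨ Y ≠ 0) (h1 : 1 * X ≤ Y) (h2 : -(2 / 5) * X ≤ Y) :
    (1 / 50 : ℝ) ≤ (G0 1 ((X + Y * I) / (X - Y * I))).re := by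
  have hp : 0 ≤ Pre X Y - 256 * (X ^ 2 + Y ^ 2) ^ 7 := by
    rcases le_total (5 * X + Y) 0 with hq | hq
    · exact p_arc4_1 (((2)*X - (-5)*Y)/23) (((-1)*Y - (5)*X)/23) (by linarith) (by linarith) X Y (by ring) (by ring)
    · exact p_arc4_0 (((5)*X - (-1)*Y)/6) (((1)*Y - (1)*X)/6) (by linarith) (by linarith) X Y (by ring) (by ring)
  have hn := n_pos X Y h0
  have he := re_eq X Y h0
  by_contra hc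
  push Not at hc
  nlinarith

end TH656.LW
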