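import Pool.Agent.H692R2.FinGraph
import Pool.Agent.H671R2.PolyAuto

/-!
# Graphs given by a list of vertices and a Boolean relation
-/

set_option autoImplicit false

namespace Pool.Agent.TH656

open Pool.Agent.NPC Pool.Agent.H692R2

/-- The vertices of our graphs are triples of numbers. -/
abbrev Vt : Type := ℕ × ℕ × ℕ

/-- The graph on the elements of the list `l`; different elements are adjacent if the relation `ad`
holds in one of the two directions. -/
def lgraph (l : List Vt) (ad : Vt → Vt → Bool) : FinGraph :=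
  ⟨l.length, SimpleGraph.fromRel (fun i j : Fin l.length => ad (l.get i) (l.get j) = true)⟩

theorem lgraph_adj {l : List Vt} {ad : Vt → Vt → Bool} (i j : Fin l.length) :
    (lgraph l ad).graph.Adj i j ↔
      i ≠ j ∧ (ad (l.get i) (l.get j) = true ∨ ad (l.get j) (l.get i) = true) := by
  unfold lgraph
  rw [SimpleGraph.fromRel_adj]

/-- A graph on a list without repetitions is polynomial-time computable if the list and the relation
are. -/
theorem poly_lgraph {α : Type} [TEnc α] {l : α → List Vt} {ad : α → Vt → Vt → Bool}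
    (hl : Poly l) (ha : Poly (fun p : α × Vt × Vt => ad p.1 p.2.1 p.2.2)) :
    Poly (fun x => lgraph (l x) (ad x)) := by
  unfold lgraph
  refine poly_finGraph (N := fun x => (l x).length)
    (b := fun x i j => !decide (i = j) &&
      (ad x ((l x).getD i (0, 0, 0)) ((l x).getD j (0, 0, 0)) ||
      ad x ((l x).getD j (0, 0, 0)) ((l x).getD i (0, 0, 0)))) (UPoly.length hl) ?_ ?_
  · have hi : Poly (fun p : (α × ℕ) × ℕ => p.1.2) := by fun_prop
    have hj : Poly (fun p : (α × ℕ) × ℕ => p.2) := by fun_prop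
    have hx : Poly (fun p : (α × ℕ) × ℕ => p.1.1) := by fun_prop
    have hvi : Poly (fun p : (α × ℕ) × ℕ => (l p.1.1).getD p.1.2 (0, 0, 0)) :=
      Poly.getD (hl.comp hx) hi (NPC.Poly.const _)
    have hvj : Poly (fun p : (α × ℕ) × ℕ => (l p.1.1).getD p.2 (0, 0, 0)) :=
      Poly.getD (hl.comp hx) hj (NPC.Poly.const _)
    have h1 : Poly (fun p : (α × ℕ) × ℕ => ad p.1.1 ((l p.1.1).getD p.1.2 (0, 0, 0))
        ((l p.1.1).getD p.2 (0, 0, 0))) := ha.comp (Poly.pair hx (Poly.pair hvi hvj))
    have h2 : Poly (fun p : (α × ℕ) × ℕ => ad p.1.1 ((l p.1.1).getD p.2 (0, 0, 0))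
        ((l p.1.1).getD p.1.2 (0, 0, 0))) := ha.comp (Poly.pair hx (Poly.pair hvj hvi))
    exact Poly.and (Poly.not (Poly.decide_eq hi hj)) (Poly.or h1 h2)
  · intro x i j
    have e : ∀ k : Fin (l x).length, (l x).getD (k : ℕ) (0, 0, 0) = (l x).get k := by
      intro k
      rw [List.getD_eq_getElem _ _ k.2]
      rfl
    rw [SimpleGraph.fromRel_adj]
    simp only [e, Bool.and_eq_true, Bool.not_eq_true', decide_eq_false_iff_not, Bool.or_eq_true,
      Fin.ext_iff, ne_eq]

end Pool.Agent.TH656
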