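import Pool.Agent.H692R2.FinGraph
import Pool.Agent.H671R2.PolyAuto

/-!
# Graphs given by a list of vertices and a Boolean relation, general vertices
-/

set_option autoImplicit false

namespace Pool.Agent.TH656

open Pool.Agent.NPC Pool.Agent.H692R2

/-- The graph on the elements of the list `l`; different elements are adjacent if the relation `ad`
holds in one of the two directions. -/
def lgr {β : Type} (l : List β) (ad : β → β → Bool) : FinGraph :=
  ⟨l.length, SimpleGraph.fromRel (fun i j : Fin l.length => ad (l.get i) (l.get j) = true)⟩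

theorem lgr_adj {β : Type} {l : List β} {ad : β → β → Bool} (i j : Fin l.length) :
    (lgr l ad).graph.Adj i j ↔
      i ≠ j ∧ (ad (l.get i) (l.get j) = true ∨ ad (l.get j) (l.get i) = true) := by
  unfold lgr
  rw [SimpleGraph.fromRel_adj]

/-- A graph on a list without repetitions is polynomial-time computable if the list and the relation
are. -/
theorem poly_lgr {α β : Type} [TEnc α] [TEnc β] (d : β) {l : α → List β} {ad : α → β → β → Bool}
    (hl : Poly l) (ha : Poly (fun p : α × β × β => ad p.1 p.2.1 p.2.2)) :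
    Poly (fun x => lgr (l x) (ad x)) := by
  unfold lgr
  refine poly_finGraph (N := fun x => (l x).length)
    (b := fun x i j => !decide (i = j) &&
      (ad x ((l x).getD i d) ((l x).getD j d) ||
      ad x ((l x).getD j d) ((l x).getD i d))) (UPoly.length hl) ?_ ?_
  · have hi : Poly (fun p : (α × ℕ) × ℕ => p.1.2) := by fun_prop
    have hj : Poly (fun p : (α × ℕ) × ℕ => p.2) := by fun_prop
    have hx : Poly (fun p : (α × ℕ) × ℕ => p.1.1) := by fun_prop
    have hvi : Poly (fun p : (α × ℕ) × ℕ => (l p.1.1).getD p.1.2 d) :=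
      Poly.getD (hl.comp hx) hi (NPC.Poly.const _)
    have hvj : Poly (fun p : (α × ℕ) × ℕ => (l p.1.1).getD p.2 d) :=
      Poly.getD (hl.comp hx) hj (NPC.Poly.const _)
    have h1 : Poly (fun p : (α × ℕ) × ℕ => ad p.1.1 ((l p.1.1).getD p.1.2 d)
        ((l p.1.1).getD p.2 d)) := ha.comp (Poly.pair hx (Poly.pair hvi hvj))
    have h2 : Poly (fun p : (α × ℕ) × ℕ => ad p.1.1 ((l p.1.1).getD p.2 d)
        ((l p.1.1).getD p.1.2 d)) := ha.comp (Poly.pair hx (Poly.pair hvj hvi))
    exact Poly.and (Poly.not (Poly.decide_eq hi hj)) (Poly.or h1 h2)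
  · intro x i j
    have e : ∀ k : Fin (l x).length, (l x).getD (k : ℕ) d = (l x).get k := by
      intro k
      rw [List.getD_eq_getElem _ _ k.2]
      rfl
    rw [SimpleGraph.fromRel_adj]
    simp only [e, Bool.and_eq_true, Bool.not_eq_true', decide_eq_false_iff_not, Bool.or_eq_true,
      Fin.ext_iff, ne_eq]

end Pool.Agent.TH656
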