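import Pool.Agent.TH716.TW.Defs

/-!
# Job 1408 (tower project): denominators and the tables modulo 5 and 7
-/

set_option autoImplicit false

namespace Pool.Agent.TH656.J1408

open Pool.Agent.TH716.TW

/-! ### the denominator -/

lemma padic_den (hv : S_val) (n : ℤ) (hn : n ≠ 0) (s : ℕ) (hs : s.Prime) :
    padicValNat s (zz n).den = 2 * dd s n := by
  have := Fact.mk hs
  obtain ⟨h0, h1⟩ := hv s hs n hn
  have hcop : s ∣ (zz n).den → padicValInt s (zz n).num = 0 := by
    intro hd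
    have h2 : ¬ (s : ℤ) ∣ (zz n).num := by
      intro h3
      have h4 : s ∣ (zz n).num.natAbs := Int.natCast_dvd.1 h3
      have h5 := Nat.dvd_gcd h4 hd
      rw [(zz n).reduced] at h5
      exact hs.one_lt.ne' (Nat.dvd_one.1 h5)
    exact padicValInt.eq_zero_of_not_dvd h2
  rcases Nat.eq_zero_or_pos (dd s n) with h | h
  · rw [h, mul_zero]
    obtain ⟨h2, -⟩ := h0 h
    apply padicValNat.eq_zero_of_not_dvd
    intro hd
    rcases h2 with h2 | h2
    · rw [h2] at hd
      exact hs.one_lt.ne' (Nat.dvd_one.1 hd)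
    · have h3 := hcop hd
      have h4 : 1 ≤ padicValNat s (zz n).den :=
        one_le_padicValNat_of_dvd (zz n).den_ne_zero hd
      unfold padicValRat at h2
      omega
  · obtain ⟨h2, -⟩ := h1 h
    have h4 : s ∣ (zz n).den := by
      by_contra h5
      have h6 := padicValNat.eq_zero_of_not_dvd h5
      unfold padicValRat at h2
      omega
    have h3 := hcop h4
    unfold padicValRat at h2
    omega

lemma exists_sq (m : ℕ) (hm : m ≠ 0) (h : ∀ s : ℕ, s.Prime → Even (padicValNat s m)) :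
    ∃ k : ℕ, m = k ^ 2 := by
  refine ⟨m.factorization.prod (fun p e => p ^ (e / 2)), ?_⟩
  rw [Finsupp.prod, ← Finset.prod_pow]
  have h1 := Nat.prod_factorization_pow_eq_self hm
  rw [Finsupp.prod] at h1
  conv_lhs => rw [← h1]
  apply Finset.prod_congr rfl
  intro p hp
  rw [← pow_mul]
  congr 1
  have hp' : p.Prime := Nat.prime_of_mem_primeFactors (by
    simpa [Nat.support_factorization] using hp)
  have h2 := h p hp'
  rw [← Nat.factorization_def m hp'] at h2
  obtain ⟨c, hc⟩ := h2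
  omega

theorem den (hv : S_val) : S_den := by
  intro n hn
  obtain ⟨k, hk⟩ := exists_sq (zz n).den (zz n).den_ne_zero (fun s hs => by
    rw [padic_den hv n hn s hs]
    exact even_two_mul _)
  have hD : DD n = k := by
    unfold DD
    rw [hk, Nat.sqrt_eq']
  refine ⟨by rw [hD, hk], fun s hs => ?_⟩
  have := Fact.mk hs
  have h1 := padic_den hv n hn s hs
  have hk0 : k ≠ 0 := by
    rintro rfl
    exact (zz n).den_ne_zero (by rw [hk]; rfl)
  rw [hk, padicValNat.pow] at h1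
  rw [hD]
  omega

lemma DD_ne (hden : S_den) (n : ℤ) (hn : n ≠ 0) : DD n ≠ 0 := by
  intro h
  have h1 := (hden n hn).1
  rw [h] at h1
  exact (zz n).den_ne_zero (by rw [h1]; rfl)

lemma DD_neg (G : GrpFacts) (n : ℤ) : DD (-n) = DD n := by
  unfold DD
  rw [(G.neg n).1]

lemma dd_neg (G : GrpFacts) (s : ℕ) (n : ℤ) : dd s (-n) = dd s n := by
  unfold dd
  rw [(G.neg n).1]

lemma zz_eq (hden : S_den) (n : ℤ) (hn : n ≠ 0) : zz n = (zz n).num / (DD n : ℚ) ^ 2 := by
  have h1 := (hden n hn).1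
  have h2 : ((zz n).den : ℚ) = (DD n : ℚ) ^ 2 := by exact_mod_cast h1
  rw [← h2]
  exact (Rat.num_div_den (zz n)).symm

/-- the integer `(zz n - zz m) D_n² D_m²` -/
noncomputable def AA (n m : ℤ) : ℤ := (zz n).num * (DD m : ℤ) ^ 2 - (zz m).num * (DD n : ℤ) ^ 2

lemma AA_eq (hden : S_den) (n m : ℤ) (hn : n ≠ 0) (hm : m ≠ 0) :
    (AA n m : ℚ) = (zz n - zz m) * ((DD n : ℚ) ^ 2 * (DD m : ℚ) ^ 2) := by
  have h1 := zz_eq hden n hn
  have h2 := zz_eq hden m hm
  have h3 : (DD n : ℚ) ≠ 0 := by exact_mod_cast DD_ne hden n hn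
  have h4 : (DD m : ℚ) ≠ 0 := by exact_mod_cast DD_ne hden m hm
  have h5 : (zz n) * (DD n : ℚ) ^ 2 = (zz n).num := by
    conv_lhs => rw [h1]
    field_simp
  have h6 : (zz m) * (DD m : ℚ) ^ 2 = (zz m).num := by
    conv_lhs => rw [h2]
    field_simp
  unfold AA
  push_cast
  rw [← h5, ← h6]
  ring

lemma key (G : GrpFacts) (hden : S_den) (hd : S_diff) (n m : ℤ) (hn : n ≠ 0) (hm : m ≠ 0)
    (h1 : n + m ≠ 0) (h2 : n - m ≠ 0) : DD (n + m) * DD (n - m) = (AA n m).natAbs := by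
  have hne : zz n - zz m ≠ 0 := by
    intro h
    rcases (G.inj n m hn hm).1 (sub_eq_zero.1 h) with h3 | h3
    · exact h2 (by rw [h3]; ring)
    · exact h1 (by rw [h3]; ring)
  have hDn : (DD n : ℚ) ≠ 0 := by exact_mod_cast DD_ne hden n hn
  have hDm : (DD m : ℚ) ≠ 0 := by exact_mod_cast DD_ne hden m hm
  have hA0 : AA n m ≠ 0 := by
    intro h
    have h3 := AA_eq hden n m hn hm
    rw [h] at h3
    have h4 : (zz n - zz m) * ((DD n : ℚ) ^ 2 * (DD m : ℚ) ^ 2) ≠ 0 := by positivity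
    exact h4 (by rw [← h3]; simp)
  apply Nat.eq_of_factorization_eq
  · exact mul_ne_zero (DD_ne hden _ h1) (DD_ne hden _ h2)
  · exact Int.natAbs_ne_zero.2 hA0
  intro s
  by_cases hs : s.Prime
  · have := Fact.mk hs
    rw [Nat.factorization_def _ hs, Nat.factorization_def _ hs,
      padicValNat.mul (DD_ne hden _ h1) (DD_ne hden _ h2), (hden _ h1).2 s hs,
      (hden _ h2).2 s hs]
    have h3 := hd s hs m n hm hn (by rw [add_comm]; exact h1) h2
    have h4 : (padicValInt s (AA n m) : ℤ) = padicValRat s (AA n m : ℚ) :=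
      (padicValRat.of_int).symm
    have h5 : padicValRat s (AA n m : ℚ) =
        padicValRat s (zz n - zz m) + (2 * (dd s n : ℤ) + 2 * (dd s m : ℤ)) := by
      rw [AA_eq hden n m hn hm, padicValRat.mul hne (by positivity),
        padicValRat.mul (by positivity) (by positivity), padicValRat.pow, padicValRat.pow,
        padicValRat.of_nat, padicValRat.of_nat, (hden _ hn).2 s hs, (hden _ hm).2 s hs]
      push_cast
      ring
    have h6 : padicValInt s (AA n m) = padicValNat s (AA n m).natAbs := rfl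
    rw [h6, h5, h3, add_comm m n] at h4
    omega
  · rw [Nat.factorization_eq_zero_of_not_prime _ hs, Nat.factorization_eq_zero_of_not_prime _ hs]

/-! ### the primes dividing the denominators -/

lemma dd_zero_of (G : GrpFacts) (hv : S_val) (hd : S_diff) (s : ℕ) (hs : s.Prime) (a b : ℤ)
    (ha : a ≠ 0) (hb : b ≠ 0) (h1 : 0 < dd s a) (h2 : dd s b = 0) :
    dd s (a + b) = 0 ∧ dd s (a - b) = 0 := by
  have := Fact.mk hs
  have hab : a + b ≠ 0 := by
    intro h
    have h3 : a = -b := by linarith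
    rw [h3, dd_neg G] at h1
    omega
  have hab' : a - b ≠ 0 := by
    intro h
    have h3 : a = b := by linarith
    rw [h3] at h1
    omega
  have h3 := hd s hs b a hb ha (by rw [add_comm]; exact hab) hab'
  have h4 := ((hv s hs a ha).2 h1).1
  have h5 := ((hv s hs b hb).1 h2).1
  have h6 : padicValRat s (zz a - zz b) = -2 * (dd s a : ℤ) := by
    rcases h5 with h5 | h5
    · rw [h5, sub_zero, h4]
    · have hza : zz a ≠ 0 := by
        intro h7
        rw [h7, padicValRat.zero] at h4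
        omega
      by_cases hzb : zz b = 0
      · rw [hzb, sub_zero, h4]
      rw [sub_eq_add_neg]
      have hs0 : zz a + -zz b ≠ 0 := by
        intro h7
        have h8 : zz a = zz b := by linarith
        rw [h8] at h4
        omega
      have h7 : padicValRat s (zz a) < padicValRat s (-zz b) := by
        rw [padicValRat.neg]
        omega
      rw [padicValRat.add_eq_of_lt hs0 hza (neg_ne_zero.2 hzb) h7, h4]
  rw [h6, h2, add_comm b a] at h3
  omega

/-- the subgroup of the `n` with `dd s n > 0` -/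
noncomputable def HH (G : GrpFacts) (hv : S_val) (hd : S_diff) (s : ℕ) (hs : s.Prime) :
    AddSubgroup ℤ where
  carrier := {n | n = 0 ∨ 0 < dd s n}
  zero_mem' := Or.inl rfl
  add_mem' := by
    intro a b ha hb
    rcases ha with ha | ha
    · rw [ha, zero_add]; exact hb
    rcases hb with hb | hb
    · rw [hb, add_zero]; exact Or.inr ha
    by_cases h0 : a + b = 0
    · exact Or.inl h0
    right
    by_contra h1
    have h2 : dd s (a + b) = 0 := by omega
    by_cases hb0 : b = 0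
    · rw [hb0, add_zero] at h2
      omega
    have h3 := (dd_zero_of G hv hd s hs b (a + b) hb0 h0 hb h2).2
    have h4 : b - (a + b) = -a := by ring
    rw [h4, dd_neg G] at h3
    omega
  neg_mem' := by
    intro a ha
    rcases ha with ha | ha
    · exact Or.inl (by rw [ha, neg_zero])
    · right
      rw [dd_neg G]
      exact ha

lemma mem_iff (G : GrpFacts) (hv : S_val) (hd : S_diff) (s : ℕ) (hs : s.Prime) (r : ℤ)
    (hr : 0 < r) (h1 : 0 < dd s r) (h2 : ∀ i : ℤ, 0 < i → i < r → dd s i = 0) (n : ℤ)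
    (hn : n ≠ 0) : 0 < dd s n ↔ r ∣ n := by
  have hrH : r ∈ HH G hv hd s hs := Or.inr h1
  constructor
  · intro h
    have hnH : n ∈ HH G hv hd s hs := Or.inr h
    have h3 : n - (n / r) • r ∈ HH G hv hd s hs :=
      AddSubgroup.sub_mem _ hnH (AddSubgroup.zsmul_mem _ hrH _)
    have h4 : n - (n / r) • r = n % r := by
      rw [smul_eq_mul, mul_comm, Int.emod_def]
    rw [h4] at h3
    rcases h3 with h3 | h3
    · exact Int.dvd_of_emod_eq_zero h3
    · exfalso
      rcases (Int.emod_nonneg n hr.ne').lt_or_eq with h5 | h5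
      · have := h2 _ h5 (Int.emod_lt_of_pos n hr)
        omega
      · have h6 : (0 : ℤ) < 1 := one_pos
        -- `dd s 0 = 0`
        rw [← h5] at h3
        have h7 : dd s 0 = 0 := by
          unfold dd zz
          rw [zero_zsmul]
          have : ptX (0 : Pt) = 0 := rfl
          rw [this, padicValRat.zero]
          rfl
        omega
  · rintro ⟨k, rfl⟩
    have h3 : k • r ∈ HH G hv hd s hs := AddSubgroup.zsmul_mem _ hrH _
    rw [smul_eq_mul, mul_comm] at h3
    rcases h3 with h3 | h3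
    · exact absurd h3 hn
    · exact h3

/-! ### small multiples -/

lemma val2 (G : GrpFacts) : zz 2 = 9 / 4 ∧ yy 2 = 19 / 8 := by
  have h := G.dbl 1 (by norm_num)
  rw [G.one.1, G.one.2] at h
  norm_num at h
  obtain ⟨h1, h2⟩ := h
  rw [h1] at h2
  refine ⟨h1, ?_⟩
  rw [h2]
  norm_num

lemma val3 (G : GrpFacts) : zz 3 = -152 / 81 ∧ yy 3 = 107 / 729 := by
  obtain ⟨a, b⟩ := val2 G
  have h := G.add 2 1 (by norm_num) (by norm_num) (by rw [a, G.one.1]; norm_num)
  rw [G.one.1, G.one.2, a, b, show (2 : ℤ) + 1 = 3 by norm_num] at h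
  obtain ⟨h1, h2⟩ := h
  rw [h1] at h2
  refine ⟨by rw [h1]; norm_num, by rw [h2]; norm_num⟩

lemma val4 (G : GrpFacts) : zz 4 = 12033 / 5776 ∧ yy 4 = -854783 / 438976 := by
  obtain ⟨a, b⟩ := val3 G
  have h := G.add 3 1 (by norm_num) (by norm_num) (by rw [a, G.one.1]; norm_num)
  rw [G.one.1, G.one.2, a, b, show (3 : ℤ) + 1 = 4 by norm_num] at h
  obtain ⟨h1, h2⟩ := h
  rw [h1] at h2
  refine ⟨by rw [h1]; norm_num, by rw [h2]; norm_num⟩

lemma val5 (G : GrpFacts) : zz 5 = -146376 / 1787569 ∧ yy 5 = -2666844179 / 2389979753 := by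
  obtain ⟨a, b⟩ := val4 G
  have h := G.add 4 1 (by norm_num) (by norm_num) (by rw [a, G.one.1]; norm_num)
  rw [G.one.1, G.one.2, a, b, show (4 : ℤ) + 1 = 5 by norm_num] at h
  obtain ⟨h1, h2⟩ := h
  rw [h1] at h2
  refine ⟨by rw [h1]; norm_num, by rw [h2]; norm_num⟩

lemma val6 (G : GrpFacts) :
    zz 6 = 2476959625 / 3709476 ∧ yy 6 = -123275544937901 / 7144450776 := by
  obtain ⟨a, b⟩ := val5 G
  have h := G.add 5 1 (by norm_num) (by norm_num) (by rw [a, G.one.1]; norm_num)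
  rw [G.one.1, G.one.2, a, b, show (5 : ℤ) + 1 = 6 by norm_num] at h
  obtain ⟨h1, h2⟩ := h
  rw [h1] at h2
  refine ⟨by rw [h1]; norm_num, by rw [h2]; norm_num⟩

lemma val7 (G : GrpFacts) : zz 7 = 250239432816 / 3432219390625 := by
  obtain ⟨a, b⟩ := val6 G
  have h := G.add 6 1 (by norm_num) (by norm_num) (by rw [a, G.one.1]; norm_num)
  rw [G.one.1, G.one.2, a, b, show (6 : ℤ) + 1 = 7 by norm_num] at h
  obtain ⟨h1, h2⟩ := h
  rw [h1]; norm_num

lemma num_DD (n a : ℤ) (k : ℕ) (hk : 0 < k) (hc : Nat.Coprime a.natAbs (k ^ 2))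
    (h : zz n = (a : ℚ) / ((k ^ 2 : ℕ) : ℤ)) : (zz n).num = a ∧ DD n = k := by
  have hk2 : (0 : ℤ) < ((k ^ 2 : ℕ) : ℤ) := by positivity
  have hc' : Nat.Coprime a.natAbs (((k ^ 2 : ℕ) : ℤ)).natAbs := by
    rw [Int.natAbs_natCast]; exact hc
  have h1 := Rat.num_div_eq_of_coprime hk2 hc'
  have h2 := Rat.den_div_eq_of_coprime hk2 hc'
  rw [← h] at h1 h2
  refine ⟨h1, ?_⟩
  unfold DD
  have h3 : (zz n).den = k ^ 2 := by exact_mod_cast h2
  rw [h3, Nat.sqrt_eq']

lemma nd1 (G : GrpFacts) : (zz 1).num = 0 ∧ DD 1 = 1 :=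
  num_DD 1 0 1 (by norm_num) (by norm_num) (by rw [G.one.1]; norm_num)
lemma nd2 (G : GrpFacts) : (zz 2).num = 9 ∧ DD 2 = 2 :=
  num_DD 2 9 2 (by norm_num) (by norm_num) (by rw [(val2 G).1]; norm_num)
lemma nd3 (G : GrpFacts) : (zz 3).num = -152 ∧ DD 3 = 9 :=
  num_DD 3 (-152) 9 (by norm_num) (by norm_num) (by rw [(val3 G).1]; norm_num)
lemma nd4 (G : GrpFacts) : (zz 4).num = 12033 ∧ DD 4 = 76 :=
  num_DD 4 12033 76 (by norm_num) (by norm_num) (by rw [(val4 G).1]; norm_num)
lemma nd5 (G : GrpFacts) : (zz 5).num = -146376 ∧ DD 5 = 1337 :=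
  num_DD 5 (-146376) 1337 (by norm_num) (by norm_num) (by rw [(val5 G).1]; norm_num)
lemma nd6 (G : GrpFacts) : (zz 6).num = 2476959625 ∧ DD 6 = 1926 :=
  num_DD 6 2476959625 1926 (by norm_num) (by norm_num) (by rw [(val6 G).1]; norm_num)
lemma nd7 (G : GrpFacts) : (zz 7).num = 250239432816 ∧ DD 7 = 1852625 :=
  num_DD 7 250239432816 1852625 (by norm_num) (by norm_num) (by rw [val7 G]; norm_num)

lemma dd_of (hden : S_den) (s : ℕ) (hs : s.Prime) (n : ℤ) (hn : n ≠ 0) :
    0 < dd s n ↔ s ∣ DD n := by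
  have := Fact.mk hs
  rw [← (hden n hn).2 s hs]
  constructor
  · intro h
    by_contra h1
    rw [padicValNat.eq_zero_of_not_dvd h1] at h
    omega
  · intro h
    exact one_le_padicValNat_of_dvd (DD_ne hden n hn) h

lemma five (G : GrpFacts) (hv : S_val) (hd : S_diff) (n : ℤ) (hn : n ≠ 0) :
    5 ∣ DD n ↔ (7 : ℤ) ∣ n := by
  have hden := den hv
  have p5 : Nat.Prime 5 := by norm_num
  rw [← dd_of hden 5 p5 n hn]
  apply mem_iff G hv hd 5 p5 7 (by norm_num) _ _ n hn
  · rw [dd_of hden 5 p5 7 (by norm_num), (nd7 G).2]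
    norm_num
  · intro i h1 h2
    by_contra h3
    have h4 : 5 ∣ DD i := (dd_of hden 5 p5 i h1.ne').1 (Nat.pos_of_ne_zero h3)
    interval_cases i
    · rw [(nd1 G).2] at h4; norm_num at h4
    · rw [(nd2 G).2] at h4; norm_num at h4
    · rw [(nd3 G).2] at h4; norm_num at h4
    · rw [(nd4 G).2] at h4; norm_num at h4
    · rw [(nd5 G).2] at h4; norm_num at h4
    · rw [(nd6 G).2] at h4; norm_num at h4

lemma seven (G : GrpFacts) (hv : S_val) (hd : S_diff) (n : ℤ) (hn : n ≠ 0) :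
    7 ∣ DD n ↔ (5 : ℤ) ∣ n := by
  have hden := den hv
  have p7 : Nat.Prime 7 := by norm_num
  rw [← dd_of hden 7 p7 n hn]
  apply mem_iff G hv hd 7 p7 5 (by norm_num) _ _ n hn
  · rw [dd_of hden 7 p7 5 (by norm_num), (nd5 G).2]
    norm_num
  · intro i h1 h2
    by_contra h3
    have h4 : 7 ∣ DD i := (dd_of hden 7 p7 i h1.ne').1 (Nat.pos_of_ne_zero h3)
    interval_cases i
    · rw [(nd1 G).2] at h4; norm_num at h4
    · rw [(nd2 G).2] at h4; norm_num at h4
    · rw [(nd3 G).2] at h4; norm_num at h4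
    · rw [(nd4 G).2] at h4; norm_num at h4

/-! ### abscissas modulo 5 and modulo 7 -/

lemma congr_p (G : GrpFacts) (hv : S_val) (hd : S_diff) (p : ℕ) (r : ℤ)
    (hp : ∀ n : ℤ, n ≠ 0 → r ∣ n → p ∣ DD n) (n i : ℤ) (hn : n ≠ 0) (hi : i ≠ 0)
    (h : r ∣ n - i ∨ r ∣ n + i) :
    ((zz n).num : ZMod p) * (DD i : ZMod p) ^ 2 = ((zz i).num : ZMod p) * (DD n : ZMod p) ^ 2 := by
  have hden := den hv
  by_cases h1 : n - i = 0
  · have : n = i := by linarith
    rw [this]
  by_cases h2 : n + i = 0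
  · have h3 : n = -i := by linarith
    rw [h3, (G.neg i).1, DD_neg G]
  have hk := key G hden hd n i hn hi h2 h1
  have h3 : p ∣ (AA n i).natAbs := by
    rw [← hk]
    rcases h with h | h
    · exact Dvd.dvd.mul_left (hp _ h1 h) _
    · exact Dvd.dvd.mul_right (hp _ h2 h) _
  have h4 : ((AA n i : ℤ) : ZMod p) = 0 := by
    rw [ZMod.intCast_zmod_eq_zero_iff_dvd] 
    exact Int.natCast_dvd.2 h3
  unfold AA at h4
  push_cast at h4
  exact sub_eq_zero.1 h4

/-- representatives of the abscissas modulo 5 -/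
def c5 (n : ℤ) : ℤ := if n % 7 = 1 ∨ n % 7 = 6 then 0 else if n % 7 = 2 ∨ n % 7 = 5 then 1 else 3

/-- representatives of the abscissas modulo 7 -/
def c7 (n : ℤ) : ℤ := if n % 5 = 1 ∨ n % 5 = 4 then 0 else 4

lemma x5 (G : GrpFacts) (hv : S_val) (hd : S_diff) (n : ℤ) (hn : ¬ (7 : ℤ) ∣ n) :
    ((zz n).num : ZMod 5) = (c5 n : ZMod 5) * (DD n : ZMod 5) ^ 2 := by
  have hn0 : n ≠ 0 := by rintro rfl; exact hn (dvd_zero _)
  have hcp := congr_p G hv hd 5 7 (fun m hm h => (five G hv hd m hm).2 h) n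
  have hcases : n % 7 = 1 ∨ n % 7 = 2 ∨ n % 7 = 3 ∨ n % 7 = 4 ∨ n % 7 = 5 ∨ n % 7 = 6 := by omega
  have k1 : (7 ∣ n - 1 ∨ 7 ∣ n + 1) → ((zz n).num : ZMod 5) = 0 := by
    intro h
    have h1 := hcp 1 hn0 (by norm_num) h
    rw [(nd1 G).1, (nd1 G).2] at h1
    simpa using h1
  have k2 : (7 ∣ n - 2 ∨ 7 ∣ n + 2) → ((zz n).num : ZMod 5) = (DD n : ZMod 5) ^ 2 := by
    intro h
    have h1 := hcp 2 hn0 (by norm_num) h
    rw [(nd2 G).1, (nd2 G).2] at h1
    push_cast at h1
    have h2 : ((zz n).num : ZMod 5) * 16 = 36 * (DD n : ZMod 5) ^ 2 := by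
      linear_combination 4 * h1
    have h3 : (16 : ZMod 5) = 1 := by decide
    have h4 : (36 : ZMod 5) = 1 := by decide
    rw [h3, h4, mul_one, one_mul] at h2
    exact h2
  have k3 : (7 ∣ n - 3 ∨ 7 ∣ n + 3) → ((zz n).num : ZMod 5) = 3 * (DD n : ZMod 5) ^ 2 := by
    intro h
    have h1 := hcp 3 hn0 (by norm_num) h
    rw [(nd3 G).1, (nd3 G).2] at h1
    push_cast at h1
    have h3 : (9 : ZMod 5) ^ 2 = 1 := by decide
    have h4 : (-152 : ZMod 5) = 3 := by decide
    rw [h3, h4, mul_one] at h1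
    exact h1
  unfold c5
  rcases hcases with h | h | h | h | h | h
  · rw [k1 (by omega), if_pos (by omega)]; simp
  · rw [k2 (by omega), if_neg (by omega), if_pos (by omega)]; simp
  · rw [k3 (by omega), if_neg (by omega), if_neg (by omega)]; simp
  · rw [k3 (by omega), if_neg (by omega), if_neg (by omega)]; simp
  · rw [k2 (by omega), if_neg (by omega), if_pos (by omega)]; simp
  · rw [k1 (by omega), if_pos (by omega)]; simp

lemma x7 (G : GrpFacts) (hv : S_val) (hd : S_diff) (n : ℤ) (hn : ¬ (5 : ℤ) ∣ n) :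
    ((zz n).num : ZMod 7) = (c7 n : ZMod 7) * (DD n : ZMod 7) ^ 2 := by
  have hn0 : n ≠ 0 := by rintro rfl; exact hn (dvd_zero _)
  have hcp := congr_p G hv hd 7 5 (fun m hm h => (seven G hv hd m hm).2 h) n
  have hcases : n % 5 = 1 ∨ n % 5 = 2 ∨ n % 5 = 3 ∨ n % 5 = 4 := by omega
  have k1 : (5 ∣ n - 1 ∨ 5 ∣ n + 1) → ((zz n).num : ZMod 7) = 0 := by
    intro h
    have h1 := hcp 1 hn0 (by norm_num) h
    rw [(nd1 G).1, (nd1 G).2] at h1
    simpa using h1
  have k2 : (5 ∣ n - 2 ∨ 5 ∣ n + 2) → ((zz n).num : ZMod 7) = 4 * (DD n : ZMod 7) ^ 2 := by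
    intro h
    have h1 := hcp 2 hn0 (by norm_num) h
    rw [(nd2 G).1, (nd2 G).2] at h1
    push_cast at h1
    have h2 : ((zz n).num : ZMod 7) * 8 = 18 * (DD n : ZMod 7) ^ 2 := by
      linear_combination 2 * h1
    have h3 : (8 : ZMod 7) = 1 := by decide
    have h4 : (18 : ZMod 7) = 4 := by decide
    rw [h3, h4, mul_one] at h2
    exact h2
  unfold c7
  rcases hcases with h | h | h | h
  · rw [k1 (by omega), if_pos (by omega)]; simp
  · rw [k2 (by omega), if_neg (by omega)]; simp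
  · rw [k2 (by omega), if_neg (by omega)]; simp
  · rw [k1 (by omega), if_pos (by omega)]; simp

/-! ### the table modulo 5 -/

lemma jac_natAbs (A : ℤ) : jacobiSym ((A.natAbs : ℕ) : ℤ) 5 = jacobiSym A 5 := by
  rcases Int.natAbs_eq A with h | h
  · rw [← h]
  · conv_rhs => rw [h]
    rw [jacobiSym.neg _ (by decide : Odd 5)]
    have : ZMod.χ₄ ((5 : ℕ) : ZMod 4) = 1 := by decide
    rw [this, one_mul]

lemma step5 (G : GrpFacts) (hv : S_val) (hd : S_diff) (n k : ℤ) (h0 : ¬ (7 : ℤ) ∣ n)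
    (h1 : ¬ (7 : ℤ) ∣ n - 2 * k) (h2 : ¬ (7 : ℤ) ∣ n - k) (h3 : ¬ (7 : ℤ) ∣ k) :
    jacobiSym (DD n : ℤ) 5 * jacobiSym (DD (n - 2 * k) : ℤ) 5 =
      jacobiSym (c5 (n - k) - c5 k) 5 := by
  have hden := den hv
  have ne : ∀ m : ℤ, ¬ (7 : ℤ) ∣ m → m ≠ 0 := by
    rintro m hm rfl
    exact hm (dvd_zero _)
  have hk := key G hden hd (n - k) k (ne _ h2) (ne _ h3) (by
    have := ne _ h0
    intro h; apply this; linarith) (by
    have := ne _ h1
    intro h; apply this; linarith)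
  rw [show n - k + k = n by ring, show n - k - k = n - 2 * k by ring] at hk
  rw [← jacobiSym.mul_left, ← Nat.cast_mul, hk, jac_natAbs]
  have hx := x5 G hv hd (n - k) h2
  have hy := x5 G hv hd k h3
  have hA : ((AA (n - k) k : ℤ) : ZMod 5) =
      (((c5 (n - k) - c5 k) * ((DD (n - k) : ℤ) * (DD k : ℤ)) ^ 2 : ℤ) : ZMod 5) := by
    unfold AA
    push_cast
    rw [hx, hy]
    ring
  have hA' := (ZMod.intCast_eq_intCast_iff' _ _ 5).1 hA
  rw [jacobiSym.mod_left' hA', jacobiSym.mul_left]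
  have hg : Int.gcd ((DD (n - k) : ℤ) * (DD k : ℤ)) ((5 : ℕ) : ℤ) = 1 := by
    have e1 : ((DD (n - k) : ℤ) * (DD k : ℤ)) = ((DD (n - k) * DD k : ℕ) : ℤ) := by push_cast; rfl
    rw [e1, Int.gcd_natCast_natCast]
    have p5 : Nat.Prime 5 := by norm_num
    rw [Nat.gcd_comm, ← Nat.coprime_iff_gcd_eq_one, Nat.Prime.coprime_iff_not_dvd p5,
      p5.dvd_mul, not_or]
    exact ⟨fun h => h2 ((five G hv hd _ (ne _ h2)).1 h), fun h => h3 ((five G hv hd _ (ne _ h3)).1 h)⟩
  rw [jacobiSym.sq_one' hg, mul_one]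

lemma t5pos (G : GrpFacts) (hv : S_val) (hd : S_diff) : ∀ n : ℕ, ¬ (7 : ℤ) ∣ (n : ℤ) →
    jacobiSym (DD (n : ℤ) : ℤ) 5 = if (n : ℤ) % 7 = 2 ∨ (n : ℤ) % 7 = 5 then -1 else 1 := by
  intro n
  induction n using Nat.strong_induction_on with
  | _ n ih =>
    intro hn
    have step : ∀ k : ℕ, 2 * k ≤ n → ¬ (7 : ℤ) ∣ (n : ℤ) - 2 * k → ¬ (7 : ℤ) ∣ (n : ℤ) - k →
        ¬ (7 : ℤ) ∣ (k : ℤ) → 0 < k →
        jacobiSym (DD (n : ℤ) : ℤ) 5 *
          (if ((n : ℤ) - 2 * k) % 7 = 2 ∨ ((n : ℤ) - 2 * k) % 7 = 5 then -1 else 1) =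
        jacobiSym (c5 ((n : ℤ) - k) - c5 k) 5 := by
      intro k hk h1 h2 h3 hk0
      have h4 := step5 G hv hd n k hn h1 h2 h3
      have h5 := ih (n - 2 * k) (by omega) (by
        rw [Nat.cast_sub hk]; push_cast; exact h1)
      rw [Nat.cast_sub hk] at h5
      push_cast at h5
      rw [h5] at h4
      exact h4
    have j1 : jacobiSym 1 5 = 1 := by norm_num
    have j2 : jacobiSym (-1) 5 = 1 := by norm_num
    have j3 : jacobiSym (-3) 5 = -1 := by norm_num
    have j4 : jacobiSym 3 5 = -1 := by norm_num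
    have hcases : (n : ℤ) % 7 = 1 ∨ (n : ℤ) % 7 = 2 ∨ (n : ℤ) % 7 = 3 ∨ (n : ℤ) % 7 = 4 ∨
      (n : ℤ) % 7 = 5 ∨ (n : ℤ) % 7 = 6 := by omega
    rcases hcases with h | h | h | h | h | h
    · by_cases hn1 : n = 1
      · subst hn1
        rw [show ((1 : ℕ) : ℤ) = 1 by rfl, (nd1 G).2]
        norm_num
      · have h8 : 8 ≤ n := by omega
        have h9 := step 2 (by omega) (by push_cast; omega) (by push_cast; omega) (by norm_num)
          (by norm_num)
        rw [if_neg (by push_cast; omega)] at h9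
        have e1 : c5 ((n : ℤ) - (2 : ℕ)) = 0 := by
          unfold c5
          rw [if_pos (by push_cast; omega)]
        have e2 : c5 ((2 : ℕ) : ℤ) = 1 := by
          unfold c5
          norm_num
        rw [e1, e2] at h9
        rw [if_neg (by omega)]
        rw [mul_one] at h9
        rw [h9]
        norm_num
    · by_cases hn1 : n = 2
      · subst hn1
        rw [show ((2 : ℕ) : ℤ) = 2 by rfl, (nd2 G).2]
        norm_num
      · have h8 : 9 ≤ n := by omega
        have h9 := step 3 (by omega) (by push_cast; omega) (by push_cast; omega) (by norm_num)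
          (by norm_num)
        rw [if_neg (by push_cast; omega)] at h9
        have e1 : c5 ((n : ℤ) - (3 : ℕ)) = 0 := by
          unfold c5
          rw [if_pos (by push_cast; omega)]
        have e2 : c5 ((3 : ℕ) : ℤ) = 3 := by
          unfold c5
          norm_num
        rw [e1, e2] at h9
        rw [if_pos (by omega)]
        rw [mul_one] at h9
        rw [h9]
        norm_num
    · have h9 := step 1 (by omega) (by push_cast; omega) (by push_cast; omega) (by norm_num)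
          (by norm_num)
      rw [if_neg (by push_cast; omega)] at h9
      have e1 : c5 ((n : ℤ) - (1 : ℕ)) = 1 := by
        unfold c5
        rw [if_neg (by push_cast; omega), if_pos (by push_cast; omega)]
      have e2 : c5 ((1 : ℕ) : ℤ) = 0 := by
        unfold c5
        norm_num
      rw [e1, e2] at h9
      rw [if_neg (by omega)]
      rw [mul_one] at h9
      rw [h9]
      norm_num
    · have h9 := step 1 (by omega) (by push_cast; omega) (by push_cast; omega) (by norm_num)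
          (by norm_num)
      rw [if_pos (by push_cast; omega)] at h9
      have e1 : c5 ((n : ℤ) - (1 : ℕ)) = 3 := by
        unfold c5
        rw [if_neg (by push_cast; omega), if_neg (by push_cast; omega)]
      have e2 : c5 ((1 : ℕ) : ℤ) = 0 := by
        unfold c5
        norm_num
      rw [e1, e2, sub_zero, j4] at h9
      rw [if_neg (by omega)]
      linarith
    · have h9 := step 1 (by omega) (by push_cast; omega) (by push_cast; omega) (by norm_num)
          (by norm_num)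
      rw [if_neg (by push_cast; omega)] at h9
      have e1 : c5 ((n : ℤ) - (1 : ℕ)) = 3 := by
        unfold c5
        rw [if_neg (by push_cast; omega), if_neg (by push_cast; omega)]
      have e2 : c5 ((1 : ℕ) : ℤ) = 0 := by
        unfold c5
        norm_num
      rw [e1, e2, sub_zero, j4] at h9
      rw [if_pos (by omega)]
      linarith
    · have h9 := step 1 (by omega) (by push_cast; omega) (by push_cast; omega) (by norm_num)
          (by norm_num)
      rw [if_neg (by push_cast; omega)] at h9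
      have e1 : c5 ((n : ℤ) - (1 : ℕ)) = 1 := by
        unfold c5
        rw [if_neg (by push_cast; omega), if_pos (by push_cast; omega)]
      have e2 : c5 ((1 : ℕ) : ℤ) = 0 := by
        unfold c5
        norm_num
      rw [e1, e2, sub_zero, j1] at h9
      rw [if_neg (by omega)]
      linarith

theorem t5 (G : GrpFacts) (hv : S_val) (hd : S_diff) : S_t5 := by
  intro n hn h
  rcases le_total 0 n with h0 | h0
  · obtain ⟨m, rfl⟩ := Int.eq_ofNat_of_zero_le h0
    exact t5pos G hv hd m h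
  · obtain ⟨m, hm⟩ := Int.eq_ofNat_of_zero_le (neg_nonneg.2 h0)
    have h1 := t5pos G hv hd m (by rw [← hm]; intro h2; exact h (by omega))
    rw [← hm, DD_neg G] at h1
    rw [h1]
    have e : ((-n) % 7 = 2 ∨ (-n) % 7 = 5) ↔ (n % 7 = 2 ∨ n % 7 = 5) := by omega
    simp only [e]

/-! ### the table modulo 7 -/

/-- `cb` on residues -/
def cz (x : ZMod 7) : ZMod 3 := cb x.val

lemma cb_cz (a : ℕ) : cb a = cz (a : ZMod 7) := by
  unfold cz
  rw [ZMod.val_natCast]
  unfold cb
  simp only [Nat.mod_mod]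

lemma cz_mul : ∀ x y : ZMod 7, x ≠ 0 → y ≠ 0 → cz (x * y) = cz x + cz y := by
  unfold cz cb
  decide

lemma cz_neg : ∀ x : ZMod 7, cz (-x) = cz x := by
  unfold cz cb
  decide

lemma cz_natAbs (A : ℤ) : cb A.natAbs = cz (A : ZMod 7) := by
  rw [cb_cz]
  rcases Int.natAbs_eq A with h | h
  · conv_rhs => rw [h]
    rw [Int.cast_natCast]
  · conv_rhs => rw [h]
    rw [Int.cast_neg, Int.cast_natCast, cz_neg]

lemma ne7 (G : GrpFacts) (hv : S_val) (hd : S_diff) (n : ℤ) (h : ¬ (5 : ℤ) ∣ n) :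
    (DD n : ZMod 7) ≠ 0 := by
  intro h1
  have hn0 : n ≠ 0 := by rintro rfl; exact h (dvd_zero _)
  rw [ZMod.natCast_eq_zero_iff] at h1
  exact h ((seven G hv hd n hn0).1 h1)

lemma step7 (G : GrpFacts) (hv : S_val) (hd : S_diff) (n k : ℤ) (h0 : ¬ (5 : ℤ) ∣ n)
    (h1 : ¬ (5 : ℤ) ∣ n - 2 * k) (h2 : ¬ (5 : ℤ) ∣ n - k) (h3 : ¬ (5 : ℤ) ∣ k)
    (h4 : ((c7 (n - k) - c7 k : ℤ) : ZMod 7) ≠ 0) :
    cb (DD n) + cb (DD (n - 2 * k)) =
      cz ((c7 (n - k) - c7 k : ℤ) : ZMod 7) + 2 * cb (DD (n - k)) + 2 * cb (DD k) := by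
  have hden := den hv
  have ne : ∀ m : ℤ, ¬ (5 : ℤ) ∣ m → m ≠ 0 := by
    rintro m hm rfl
    exact hm (dvd_zero _)
  have hk := key G hden hd (n - k) k (ne _ h2) (ne _ h3) (by
    have := ne _ h0
    intro h; apply this; linarith) (by
    have := ne _ h1
    intro h; apply this; linarith)
  rw [show n - k + k = n by ring, show n - k - k = n - 2 * k by ring] at hk
  have hx := x7 G hv hd (n - k) h2
  have hy := x7 G hv hd k h3
  have hA : ((AA (n - k) k : ℤ) : ZMod 7) =
      ((c7 (n - k) - c7 k : ℤ) : ZMod 7) * ((DD (n - k) : ZMod 7) * (DD (n - k) : ZMod 7)) *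
        ((DD k : ZMod 7) * (DD k : ZMod 7)) := by
    unfold AA
    push_cast
    rw [hx, hy]
    ring
  have n0 := ne7 G hv hd n h0
  have n1 := ne7 G hv hd _ h1
  have n2 := ne7 G hv hd _ h2
  have n3 := ne7 G hv hd _ h3
  have : Fact (Nat.Prime 7) := ⟨by norm_num⟩
  have e1 : cb (DD n * DD (n - 2 * k)) = cb (DD n) + cb (DD (n - 2 * k)) := by
    rw [cb_cz, cb_cz, cb_cz, Nat.cast_mul, cz_mul _ _ n0 n1]
  rw [← e1, hk, cz_natAbs, hA,
    cz_mul _ _ (mul_ne_zero h4 (mul_ne_zero n2 n2)) (mul_ne_zero n3 n3),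
    cz_mul _ _ h4 (mul_ne_zero n2 n2), cz_mul _ _ n2 n2, cz_mul _ _ n3 n3, cb_cz (DD (n - k)),
    cb_cz (DD k)]
  ring

lemma t7pos (G : GrpFacts) (hv : S_val) (hd : S_diff) : ∀ n : ℕ, ¬ (5 : ℤ) ∣ (n : ℤ) →
    cb (DD (n : ℤ)) = if (n : ℤ) % 5 = 2 ∨ (n : ℤ) % 5 = 3 then 2 else 0 := by
  intro n
  induction n using Nat.strong_induction_on with
  | _ n ih =>
    intro hn
    have b1 : cb (DD ((1 : ℕ) : ℤ)) = 0 := by
      rw [show ((1 : ℕ) : ℤ) = 1 by rfl, (nd1 G).2]; decide
    have b2 : cb (DD ((2 : ℕ) : ℤ)) = 2 := by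
      rw [show ((2 : ℕ) : ℤ) = 2 by rfl, (nd2 G).2]; decide
    have b3 : cb (DD ((3 : ℕ) : ℤ)) = 2 := by
      rw [show ((3 : ℕ) : ℤ) = 3 by rfl, (nd3 G).2]; decide
    have step : ∀ k : ℕ, 2 * k ≤ n → ¬ (5 : ℤ) ∣ (n : ℤ) - 2 * k → ¬ (5 : ℤ) ∣ (n : ℤ) - k →
        ¬ (5 : ℤ) ∣ (k : ℤ) → 0 < k →
        ((c7 ((n : ℤ) - k) - c7 k : ℤ) : ZMod 7) ≠ 0 →
        cb (DD (n : ℤ)) +
          (if ((n : ℤ) - 2 * k) % 5 = 2 ∨ ((n : ℤ) - 2 * k) % 5 = 3 then 2 else 0) =
        cz ((c7 ((n : ℤ) - k) - c7 k : ℤ) : ZMod 7) +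
          2 * (if ((n : ℤ) - k) % 5 = 2 ∨ ((n : ℤ) - k) % 5 = 3 then 2 else 0) +
          2 * cb (DD (k : ℤ)) := by
      intro k hk h1 h2 h3 hk0 hc
      have h4 := step7 G hv hd n k hn h1 h2 h3 hc
      have h5 := ih (n - 2 * k) (by omega) (by
        rw [Nat.cast_sub hk]; push_cast; exact h1)
      rw [Nat.cast_sub hk] at h5
      push_cast at h5
      have h6 := ih (n - k) (by omega) (by
        rw [Nat.cast_sub (by omega)]; exact h2)
      rw [Nat.cast_sub (by omega)] at h6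
      rw [h5, h6] at h4
      exact h4
    have z1 : cz ((0 - 4 : ℤ) : ZMod 7) = 1 := by decide
    have z2 : cz ((4 - 0 : ℤ) : ZMod 7) = 1 := by decide
    have w1 : ((0 - 4 : ℤ) : ZMod 7) ≠ 0 := by decide
    have w2 : ((4 - 0 : ℤ) : ZMod 7) ≠ 0 := by decide
    have f1 : c7 ((1 : ℕ) : ℤ) = 0 := by unfold c7; norm_num
    have f2 : c7 ((2 : ℕ) : ℤ) = 4 := by unfold c7; norm_num
    have f3 : c7 ((3 : ℕ) : ℤ) = 4 := by unfold c7; norm_num
    have hcases : (n : ℤ) % 5 = 1 ∨ (n : ℤ) % 5 = 2 ∨ (n : ℤ) % 5 = 3 ∨ (n : ℤ) % 5 = 4 := by omega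
    rcases hcases with h | h | h | h
    · by_cases hn1 : n = 1
      · subst hn1
        rw [b1, if_neg (by omega)]
      · have e1 : c7 ((n : ℤ) - (2 : ℕ)) = 0 := by
          unfold c7
          rw [if_pos (by push_cast; omega)]
        have h9 := step 2 (by omega) (by push_cast; omega) (by push_cast; omega) (by norm_num)
          (by norm_num) (by rw [e1, f2]; exact w1)
        rw [e1, f2, z1, b2, if_pos (by push_cast; omega), if_neg (by push_cast; omega)] at h9
        rw [if_neg (by omega)]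
        have h10 : cb (DD (n : ℤ)) = 1 + 2 * 0 + 2 * 2 - 2 := by
          rw [← h9]; ring
        rw [h10]; decide
    · by_cases hn1 : n = 2
      · subst hn1
        rw [b2, if_pos (by omega)]
      · have e1 : c7 ((n : ℤ) - (3 : ℕ)) = 0 := by
          unfold c7
          rw [if_pos (by push_cast; omega)]
        have h9 := step 3 (by omega) (by push_cast; omega) (by push_cast; omega) (by norm_num)
          (by norm_num) (by rw [e1, f3]; exact w1)
        rw [e1, f3, z1, b3, if_neg (by push_cast; omega), if_neg (by push_cast; omega)] at h9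
        rw [if_pos (by omega)]
        have h10 : cb (DD (n : ℤ)) = 1 + 2 * 0 + 2 * 2 - 0 := by
          rw [← h9]; ring
        rw [h10]; decide
    · have e1 : c7 ((n : ℤ) - (1 : ℕ)) = 4 := by
        unfold c7
        rw [if_neg (by push_cast; omega)]
      have h9 := step 1 (by omega) (by push_cast; omega) (by push_cast; omega) (by norm_num)
        (by norm_num) (by rw [e1, f1]; exact w2)
      rw [e1, f1, z2, b1, if_neg (by push_cast; omega), if_pos (by push_cast; omega)] at h9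
      rw [if_pos (by omega)]
      have h10 : cb (DD (n : ℤ)) = 1 + 2 * 2 + 2 * 0 - 0 := by
        rw [← h9]; ring
      rw [h10]; decide
    · have e1 : c7 ((n : ℤ) - (1 : ℕ)) = 4 := by
        unfold c7
        rw [if_neg (by push_cast; omega)]
      have h9 := step 1 (by omega) (by push_cast; omega) (by push_cast; omega) (by norm_num)
        (by norm_num) (by rw [e1, f1]; exact w2)
      rw [e1, f1, z2, b1, if_pos (by push_cast; omega), if_pos (by push_cast; omega)] at h9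
      rw [if_neg (by omega)]
      have h10 : cb (DD (n : ℤ)) = 1 + 2 * 2 + 2 * 0 - 2 := by
        rw [← h9]; ring
      rw [h10]; decide

theorem t7 (G : GrpFacts) (hv : S_val) (hd : S_diff) : S_t7 := by
  intro n hn h
  refine ⟨fun h1 => h ((seven G hv hd n hn).1 h1), ?_⟩
  rcases le_total 0 n with h0 | h0
  · obtain ⟨m, rfl⟩ := Int.eq_ofNat_of_zero_le h0
    exact t7pos G hv hd m h
  · obtain ⟨m, hm⟩ := Int.eq_ofNat_of_zero_le (neg_nonneg.2 h0)
    have h1 := t7pos G hv hd m (by rw [← hm]; intro h2; exact h (by omega))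
    rw [← hm, DD_neg G] at h1
    rw [h1]
    have e : ((-n) % 5 = 2 ∨ (-n) % 5 = 3) ↔ (n % 5 = 2 ∨ n % 5 = 3) := by omega
    simp only [e]

theorem result (G : GrpFacts) (hv : S_val) (hd : S_diff) : S_den ∧ S_t5 ∧ S_t7 :=
  ⟨den hv, t5 G hv hd, t7 G hv hd⟩

end Pool.Agent.TH656.J1408
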