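import Pool.Agent.TH614.HS.Base

/-! Job 3906: invariance of `Pos` (project HS). -/

set_option autoImplicit false

namespace Pool.Agent.TH656.J3906

open Polynomial Pool.Agent.TH614.HS

variable {L : Type} [Field L] {D : HD L}

/-! ### part 1 -/

lemma cn {c : L} (hc : c ^ D.q = c) (n : ℕ) : c ^ (D.q ^ n) = c := by
  induction n with
  | zero => simp
  | succ n ih => rw [← D.pq, ih, hc]

lemma Phi_c {x c : L} (hc : c ^ D.q = c) : D.Phi (c * x) = C (c ^ 2) * D.Phi x := by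
  unfold HD.Phi
  simp only [mul_pow, cn hc, hc]
  simp only [C_mul, C_pow, C_sub]
  ring

lemma mem_c {x c : L} (hc : c ^ D.q = c) (h0 : c ≠ 0) (P Y : L) :
    D.mem (c * x) P Y ↔ D.mem x P Y := by
  unfold HD.mem
  simp only [mul_pow, cn hc]
  constructor
  · rintro ⟨h1, h2⟩
    refine ⟨h1, mul_left_cancel₀ h0 ?_⟩
    linear_combination h2
  · rintro ⟨h1, h2⟩
    refine ⟨h1, ?_⟩
    linear_combination c * h2

lemma Zr_c {x c : L} (hc : c ^ D.q = c) (h0 : c ≠ 0) (s e : L) :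
    D.Zr (c * x) s e ↔ D.Zr x s e := by
  unfold HD.Zr
  simp only [mem_c hc h0]

lemma part1 {x c : L} (hc : c ^ D.q = c) (h0 : c ≠ 0) : Pos D (c * x) ↔ Pos D x := by
  unfold Pos
  have h : {s : L | (D.Phi (c * x)).eval s = 0 ∧ D.Zr (c * x) s 1} =
      {s : L | (D.Phi x).eval s = 0 ∧ D.Zr x s 1} := by
    ext s
    simp only [Set.mem_setOf_eq, Zr_c hc h0, Phi_c hc, eval_mul, eval_C, mul_eq_zero,
      pow_eq_zero_iff (two_ne_zero), h0, false_or]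
  rw [h]

/-! ### part 2 -/

/-- the conjugates of `a` -/
structure Cj (D : HD L) (a v : L) : Prop where
  ne : a ≠ 0
  vne : v ≠ 0
  h1 : a ^ D.q = v
  h2 : a ^ (D.q ^ 2) = v / a
  h3 : a ^ (D.q ^ 3) = a⁻¹
  h4 : a ^ (D.q ^ 4) = v⁻¹
  h5 : a ^ (D.q ^ 5) = a / v
  h6 : a ^ (D.q ^ 6) = a

lemma cj {a : L} (ha : a ^ (D.q ^ 2 - D.q + 1) = 1) : Cj D a (a ^ D.q) := by
  have hq5 := D.h5
  have hne : a ≠ 0 := by
    rintro rfl
    rw [zero_pow (Nat.succ_ne_zero _)] at ha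
    exact zero_ne_one ha
  have hle : D.q ≤ D.q ^ 2 := by nlinarith
  have h2' : a ^ (D.q ^ 2) * a = a ^ D.q := by
    rw [← pow_succ]
    have e : D.q ^ 2 + 1 = (D.q ^ 2 - D.q + 1) + D.q := by omega
    rw [e, pow_add, ha, one_mul]
  have hv : a ^ D.q ≠ 0 := pow_ne_zero _ hne
  have h2 : a ^ (D.q ^ 2) = a ^ D.q / a := by
    rw [eq_div_iff hne, h2']
  have h3 : a ^ (D.q ^ 3) = a⁻¹ := by
    rw [← D.pq a 2, h2, div_pow, D.qq, h2]
    field_simp
  have h4 : a ^ (D.q ^ 4) = (a ^ D.q)⁻¹ := by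
    rw [← D.pq a 3, h3, inv_pow]
  have h5 : a ^ (D.q ^ 5) = a / a ^ D.q := by
    rw [← D.pq a 4, h4, inv_pow, D.qq, h2, inv_div]
  have h6 : a ^ (D.q ^ 6) = a := by
    rw [← D.pp a 3 3, h3, inv_pow, h3, inv_inv]
  exact ⟨hne, hv, rfl, h2, h3, h4, h5, h6⟩

lemma Phi_a {a v x : L} (h : Cj D a v) (s : L) :
    (D.Phi (a * x)).eval (s / a) = (a ^ 2)⁻¹ * (D.Phi x).eval s := by
  have hne := h.ne
  have hv := h.vne
  unfold HD.Phi
  simp only [mul_pow, h.h1, h.h2, h.h3, h.h4, h.h5, eval_add, eval_sub, eval_mul, eval_C, eval_pow,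
    eval_X]
  field_simp

lemma mem_a {a v x : L} (h : Cj D a v) (P Y : L) :
    D.mem (a * x) (a * P) Y ↔ D.mem x P Y := by
  have hne := h.ne
  have hv := h.vne
  unfold HD.mem HD.Pt
  simp only [mul_pow, h.h2, h.h3, h.h4, h.h6]
  have e1 : (a * P ^ (D.q ^ 6) = a * P) ↔ (P ^ (D.q ^ 6) = P) :=
    ⟨fun h => mul_left_cancel₀ hne h, fun h => by rw [h]⟩
  rw [e1]
  have e2 : (v / a * x ^ (D.q ^ 2) * (v⁻¹ * P ^ (D.q ^ 4)) -
      v⁻¹ * x ^ (D.q ^ 4) * (v / a * P ^ (D.q ^ 2))) =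
      a⁻¹ * (x ^ (D.q ^ 2) * P ^ (D.q ^ 4) - x ^ (D.q ^ 4) * P ^ (D.q ^ 2)) := by
    field_simp
  have e3 : Y * (a⁻¹ * x ^ (D.q ^ 3)) = a⁻¹ * (Y * x ^ (D.q ^ 3)) := by ring
  rw [e2, e3]
  have e4 : (a⁻¹ * (x ^ (D.q ^ 2) * P ^ (D.q ^ 4) - x ^ (D.q ^ 4) * P ^ (D.q ^ 2)) =
      a⁻¹ * (Y * x ^ (D.q ^ 3))) ↔
      (x ^ (D.q ^ 2) * P ^ (D.q ^ 4) - x ^ (D.q ^ 4) * P ^ (D.q ^ 2) = Y * x ^ (D.q ^ 3)) :=
    ⟨fun h => mul_left_cancel₀ (inv_ne_zero hne) h, fun h => by rw [h]⟩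
  rw [e4]

lemma CC_a {a v : L} (h : Cj D a v) (P Y s : L) :
    (D.CC (a * P) Y).eval (s / a) = (D.CC P Y).eval s / a := by
  have hne := h.ne
  have hv := h.vne
  unfold HD.CC
  simp only [mul_pow, h.h2, h.h4, eval_add, eval_sub, eval_mul, eval_C, eval_pow, eval_X]
  field_simp

lemma CD_a {a v : L} (h : Cj D a v) (P Y s : L) :
    (D.CD (a * P) Y).eval (s / a) = (D.CD P Y).eval s / a ^ 2 := by
  have hne := h.ne
  have hv := h.vne
  unfold HD.CD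
  simp only [mul_pow, h.h1, h.h3, h.h5, eval_add, eval_sub, eval_mul, eval_C, eval_pow, eval_X]
  field_simp

lemma BP_a {a v : L} (h : Cj D a v) (P Y s : L) :
    (D.BP (a * P) Y).eval (s / a) = (D.BP P Y).eval s / (a * v) := by
  have hne := h.ne
  have hv := h.vne
  have e1 : (s / a) ^ (2 * D.q + 2) = s ^ (2 * D.q + 2) / (v ^ 2 * a ^ 2) := by
    rw [div_pow, ← h.h1]
    congr 1
    ring
  have e2 : (s / a) ^ (2 * D.q + 1) = s ^ (2 * D.q + 1) / (v ^ 2 * a) := by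
    rw [div_pow, ← h.h1]
    congr 1
    ring
  have e3 : (s / a) ^ (2 * D.q) = s ^ (2 * D.q) / v ^ 2 := by
    rw [div_pow, ← h.h1]
    congr 1
    ring
  have e4 : (s / a) ^ (D.q + 2) = s ^ (D.q + 2) / (v * a ^ 2) := by
    rw [div_pow, ← h.h1]
    congr 1
    ring
  have e5 : (s / a) ^ (D.q + 1) = s ^ (D.q + 1) / (v * a) := by
    rw [div_pow, ← h.h1]
    congr 1
    exact pow_succ _ _
  have e6 : (s / a) ^ D.q = s ^ D.q / v := by
    rw [div_pow, ← h.h1]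
  unfold HD.BP
  simp only [mul_pow, h.h1, h.h2, h.h3, h.h4, h.h5, eval_add, eval_sub, eval_mul, eval_C, eval_pow,
    eval_X, e1, e2, e3, e4, e5, e6]
  field_simp

lemma G_a {a v : L} (h : Cj D a v) (e P Y s : L) :
    (D.G e (a * P) Y).eval (s / a) = (D.G e P Y).eval s / (a * v) := by
  have hne := h.ne
  have hv := h.vne
  unfold HD.G
  simp only [eval_add, eval_sub, eval_mul, eval_C, eval_pow, eval_X, BP_a h, CC_a h, CD_a h]
  have hm : 2 * ((D.q + 1) / 2) = D.q + 1 := by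
    have := D.h4
    omega
  have e1 : (s / a) ^ ((D.q + 1) / 2) * ((D.CC P Y).eval s / a) ^ ((D.q + 1) / 2) =
      s ^ ((D.q + 1) / 2) * ((D.CC P Y).eval s) ^ ((D.q + 1) / 2) / (a * v) := by
    rw [div_pow, div_pow, div_mul_div_comm]
    congr 1
    rw [← pow_add, ← two_mul, hm, pow_succ, h.h1]
    ring
  have e2 : ((D.CD P Y).eval s / a ^ 2) ^ ((D.q + 1) / 2) =
      ((D.CD P Y).eval s) ^ ((D.q + 1) / 2) / (a * v) := by
    rw [div_pow]
    congr 1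
    rw [← pow_mul, hm, pow_succ, h.h1]
    ring
  rw [e1, e2]
  ring

lemma Zr_a {a v x : L} (h : Cj D a v) (s e : L) : D.Zr (a * x) (s / a) e ↔ D.Zr x s e := by
  have hne := h.ne
  have hv := h.vne
  constructor
  · intro hz P Y hP
    have h1 := hz (a * P) Y ((mem_a h P Y).2 hP)
    rw [G_a h, div_eq_zero_iff] at h1
    exact h1.resolve_right (mul_ne_zero hne hv)
  · intro hz P Y hP
    have e1 : a * (P / a) = P := by field_simp
    rw [← e1] at hP ⊢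
    rw [G_a h, hz _ _ ((mem_a h _ Y).1 hP), zero_div]

lemma part2 {a x : L} (ha : a ^ (D.q ^ 2 - D.q + 1) = 1) : Pos D (a * x) ↔ Pos D x := by
  have h := cj ha
  have hne := h.ne
  unfold Pos
  have h1 : {s : L | (D.Phi (a * x)).eval s = 0 ∧ D.Zr (a * x) s 1} =
      (fun s => s / a) '' {s : L | (D.Phi x).eval s = 0 ∧ D.Zr x s 1} := by
    ext s
    simp only [Set.mem_setOf_eq, Set.mem_image]
    constructor
    · rintro ⟨h2, h3⟩
      have e1 : (a * s) / a = s := by field_simp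
      refine ⟨a * s, ⟨?_, ?_⟩, e1⟩
      · have h4 := Phi_a (x := x) h (a * s)
        rw [e1, h2] at h4
        exact (mul_eq_zero.1 h4.symm).resolve_left (inv_ne_zero (pow_ne_zero _ hne))
      · rw [← Zr_a h, e1]
        exact h3
    · rintro ⟨s', ⟨h2, h3⟩, rfl⟩
      refine ⟨?_, (Zr_a h s' 1).2 h3⟩
      rw [Phi_a h, h2, mul_zero]
  rw [h1, Set.ncard_image_of_injective]
  intro s s' hs
  exact (div_left_inj' hne).1 hs

theorem INV : S_INV := fun _ _ _ _ =>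
  ⟨fun _ _ _ hc h0 => part1 hc h0, fun _ _ _ ha => part2 ha⟩

end Pool.Agent.TH656.J3906
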