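import Pool.Agent.TH179.SD.Lin

/-!
# Null homotopies relative to the boundary

If every map from the `m`-sphere to `Y` is freely null homotopic, then every map from the `m`-ball
to `Y` which is constant on the boundary is null homotopic relative to the boundary.
-/

open scoped Topology unitInterval
open Set Topology

noncomputable section

namespace Pool.Agent.TH656.SD

open Pool.Agent.TH179.SD

/-- Euclidean space -/
abbrev Eu (m : ℕ) : Type := EuclideanSpace ℝ (Fin m)

/-- the map from the ball to the sphere which collapses the boundary -/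
def q0 {m : ℕ} (a : Eu m) : Eu (m + 1) :=
  WithLp.toLp 2 (Fin.cons (2 * ‖a‖ ^ 2 - 1) (fun i => 2 * √(1 - ‖a‖ ^ 2) * a i))

/-- the point at infinity -/
def pinf (m : ℕ) : Eu (m + 1) := WithLp.toLp 2 (Fin.cons 1 (fun _ => 0))

lemma q0_norm {m : ℕ} {a : Eu m} (ha : ‖a‖ ≤ 1) : ‖q0 a‖ = 1 := by
  have h : ‖q0 a‖ ^ 2 = 1 := by
    rw [EuclideanSpace.real_norm_sq_eq, Fin.sum_univ_succ]
    simp only [q0, Fin.cons_zero, Fin.cons_succ]
    have h1 : ∀ i : Fin m, (2 * √(1 - ‖a‖ ^ 2) * a i) ^ 2 = 4 * (1 - ‖a‖ ^ 2) * (a i) ^ 2 := by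
      intro i
      rw [mul_pow, mul_pow, Real.sq_sqrt (by nlinarith [norm_nonneg a])]
      ring
    simp only [h1]
    rw [← Finset.mul_sum, ← EuclideanSpace.real_norm_sq_eq]
    ring
  have := norm_nonneg (q0 a)
  nlinarith [sq_nonneg (‖q0 a‖ - 1)]

lemma q0_continuous {m : ℕ} : Continuous (q0 (m := m)) := by
  unfold q0
  refine (PiLp.continuous_toLp 2 _).comp ?_
  refine continuous_pi fun i => ?_
  refine Fin.cases ?_ (fun j => ?_) i
  · simp only [Fin.cons_zero]
    fun_prop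
  · simp only [Fin.cons_succ]
    fun_prop

lemma q0_one {m : ℕ} {a : Eu m} (ha : ‖a‖ = 1) : q0 a = pinf m := by
  unfold q0 pinf
  rw [ha]
  norm_num

lemma pinf_norm {m : ℕ} : ‖pinf m‖ = 1 := by
  have h : ‖pinf m‖ ^ 2 = 1 := by
    rw [EuclideanSpace.real_norm_sq_eq, Fin.sum_univ_succ]
    simp [pinf]
  have := norm_nonneg (pinf m)
  nlinarith [sq_nonneg (‖pinf m‖ - 1)]

lemma q0_inj {m : ℕ} {a b : Eu m} (ha : ‖a‖ ≤ 1) (hb : ‖b‖ ≤ 1) (h : q0 a = q0 b) :
    a = b ∨ (‖a‖ = 1 ∧ ‖b‖ = 1) := by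
  have h0 : 2 * ‖a‖ ^ 2 - 1 = 2 * ‖b‖ ^ 2 - 1 := by
    have := congrArg (fun x : Eu (m + 1) => x 0) h
    simpa [q0] using this
  have hn : ‖a‖ = ‖b‖ := by
    have h2 : ‖a‖ ^ 2 = ‖b‖ ^ 2 := by linarith
    exact (sq_eq_sq₀ (norm_nonneg a) (norm_nonneg b)).1 h2
  rcases eq_or_lt_of_le ha with h1 | h1
  · exact Or.inr ⟨h1, by rw [← hn, h1]⟩
  · left
    ext i
    have h3 : 2 * √(1 - ‖a‖ ^ 2) * a i = 2 * √(1 - ‖b‖ ^ 2) * b i := by
      have := congrArg (fun x : Eu (m + 1) => x i.succ) h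
      simpa [q0] using this
    rw [← hn] at h3
    have h4 : 0 < 2 * √(1 - ‖a‖ ^ 2) := by
      have : 0 < 1 - ‖a‖ ^ 2 := by nlinarith [norm_nonneg a]
      have := Real.sqrt_pos.2 this
      linarith
    exact mul_left_cancel₀ h4.ne' h3

lemma q0_surj {m : ℕ} (hne : ∃ a : Eu m, ‖a‖ = 1) {x : Eu (m + 1)} (hx : ‖x‖ = 1) :
    ∃ a : Eu m, ‖a‖ ≤ 1 ∧ q0 a = x := by
  have hs : x 0 ^ 2 + ∑ i : Fin m, x i.succ ^ 2 = 1 := by
    have := EuclideanSpace.real_norm_sq_eq x
    rw [Fin.sum_univ_succ, hx] at this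
    linarith
  have hle : x 0 ≤ 1 := by
    have : 0 ≤ ∑ i : Fin m, x i.succ ^ 2 := Finset.sum_nonneg fun i _ => sq_nonneg _
    nlinarith
  rcases eq_or_lt_of_le hle with h1 | h1
  · obtain ⟨a, ha⟩ := hne
    refine ⟨a, ha.le, ?_⟩
    rw [q0_one ha]
    have h2 : ∑ i : Fin m, x i.succ ^ 2 = 0 := by rw [h1] at hs; linarith
    rw [Finset.sum_eq_zero_iff_of_nonneg (fun i _ => sq_nonneg _)] at h2
    ext i
    refine Fin.cases ?_ (fun j => ?_) i
    · simp [pinf, h1]
    · have := h2 j (Finset.mem_univ j)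
      simp only [pinf, Fin.cons_succ]
      exact (pow_eq_zero_iff (two_ne_zero)).1 this |>.symm
  · obtain ⟨c, hc⟩ : ∃ c, c = √(2 * (1 - x 0)) := ⟨_, rfl⟩
    have hc2 : c ^ 2 = 2 * (1 - x 0) := by rw [hc, Real.sq_sqrt (by linarith)]
    have hcpos : 0 < c := by rw [hc]; exact Real.sqrt_pos.2 (by linarith)
    let a : Eu m := WithLp.toLp 2 (fun i => x i.succ / c)
    have han : ‖a‖ ^ 2 = (1 + x 0) / 2 := by
      rw [EuclideanSpace.real_norm_sq_eq]
      simp only [a, div_pow]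
      rw [← Finset.sum_div, hc2]
      have : ∑ i : Fin m, x i.succ ^ 2 = (1 - x 0) * (1 + x 0) := by linarith
      rw [this]
      field_simp [show (1 - x 0) ≠ 0 by linarith]
    refine ⟨a, ?_, ?_⟩
    · nlinarith [norm_nonneg a]
    · ext i
      refine Fin.cases ?_ (fun j => ?_) i
      · simp only [q0, Fin.cons_zero]
        rw [han]; ring
      · simp only [q0, Fin.cons_succ]
        rw [han]
        have h5 : 1 - (1 + x 0) / 2 = (c / 2) ^ 2 := by rw [div_pow, hc2]; ring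
        rw [h5, Real.sqrt_sq (by positivity)]
        simp only [a]
        field_simp

variable {Y : Type} [TopologicalSpace Y]

theorem null_rel {m : ℕ} (hne : ∃ a : Eu m, ‖a‖ = 1) (hY : NullSph m Y) (α : Eu m → Y)
    (hα : ContinuousOn α (Metric.closedBall 0 1)) (y1 : Y) (h1 : ∀ a, ‖a‖ = 1 → α a = y1) :
    ∃ A : ℝ → Eu m → Y,
      ContinuousOn (fun p : ℝ × Eu m => A p.1 p.2) (Icc 0 1 ×ˢ Metric.closedBall 0 1) ∧
      (∀ a, ‖a‖ ≤ 1 → A 0 a = α a) ∧ (∀ a, A 1 a = y1) ∧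
      (∀ t ∈ Icc (0 : ℝ) 1, ∀ a, ‖a‖ = 1 → A t a = y1) := by
  classical
  have hne' := hne
  obtain ⟨a0, ha0⟩ := hne'
  -- the map on the sphere
  have hQm : ∀ a : Metric.closedBall (0 : Eu m) 1, q0 a.1 ∈ Metric.sphere (0 : Eu (m + 1)) 1 := by
    intro a
    rw [mem_sphere_zero_iff_norm]
    exact q0_norm (mem_closedBall_zero_iff.1 a.2)
  let Q : C(Metric.closedBall (0 : Eu m) 1, Metric.sphere (0 : Eu (m + 1)) 1) :=
    ⟨fun a => ⟨q0 a.1, hQm a⟩,
      Continuous.subtype_mk (q0_continuous.comp continuous_subtype_val) hQm⟩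
  have hQs : Function.Surjective Q := by
    intro x
    obtain ⟨a, ha, hax⟩ := q0_surj hne (mem_sphere_zero_iff_norm.1 x.2)
    exact ⟨⟨a, mem_closedBall_zero_iff.2 ha⟩, Subtype.ext hax⟩
  have : CompactSpace (Metric.closedBall (0 : Eu m) 1) :=
    isCompact_iff_compactSpace.1 (isCompact_closedBall _ _)
  have hQ : IsQuotientMap Q := IsQuotientMap.of_surjective_continuous hQs Q.continuous
  let α' : C(Metric.closedBall (0 : Eu m) 1, Y) :=
    ⟨fun a => α a.1, continuousOn_iff_continuous_domRestrict.1 hα⟩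
  have hfac : Function.FactorsThrough α' Q := by
    intro a b hab
    have hab' : q0 a.1 = q0 b.1 := congrArg Subtype.val hab
    rcases q0_inj (mem_closedBall_zero_iff.1 a.2) (mem_closedBall_zero_iff.1 b.2) hab' with h | h
    · exact congrArg α h
    · change α a.1 = α b.1
      rw [h1 _ h.1, h1 _ h.2]
  let αb : C(Metric.sphere (0 : Eu (m + 1)) 1, Y) := hQ.lift α' hfac
  have hαb : ∀ a, αb (Q a) = α' a := by
    intro a
    have := hQ.lift_comp α' hfac
    exact congrArg (fun f : C(_, _) => f a) this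
  obtain ⟨y2, ⟨F⟩⟩ := hY αb
  -- the cone
  have : CompactSpace (Metric.sphere (0 : Eu (m + 1)) 1) :=
    isCompact_iff_compactSpace.1 (isCompact_sphere _ _)
  let C : C(I × Metric.sphere (0 : Eu (m + 1)) 1, Metric.closedBall (0 : Eu (m + 1)) 1) :=
    ⟨fun p => ⟨(1 - (p.1 : ℝ)) • p.2.1, by
      rw [mem_closedBall_zero_iff, norm_smul, mem_sphere_zero_iff_norm.1 p.2.2, mul_one,
        Real.norm_eq_abs, abs_of_nonneg (by linarith [p.1.2.2])]
      linarith [p.1.2.1]⟩, by
      refine Continuous.subtype_mk ?_ _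
      fun_prop⟩
  have hCs : Function.Surjective C := by
    intro x
    by_cases hx : x.1 = 0
    · refine ⟨(1, ⟨pinf m, by rw [mem_sphere_zero_iff_norm]; exact pinf_norm⟩), Subtype.ext ?_⟩
      change (1 - ((1 : I) : ℝ)) • pinf m = x.1
      rw [hx]
      simp
    · have hx1 : ‖x.1‖ ≤ 1 := mem_closedBall_zero_iff.1 x.2
      have hx0 : 0 < ‖x.1‖ := norm_pos_iff.2 hx
      refine ⟨(⟨1 - ‖x.1‖, by constructor <;> linarith⟩, ⟨‖x.1‖⁻¹ • x.1, ?_⟩), Subtype.ext ?_⟩
      · rw [mem_sphere_zero_iff_norm, norm_smul, norm_inv, norm_norm]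
        exact inv_mul_cancel₀ hx0.ne'
      · change (1 - (1 - ‖x.1‖)) • (‖x.1‖⁻¹ • x.1) = x.1
        rw [smul_smul]
        have : (1 - (1 - ‖x.1‖)) * ‖x.1‖⁻¹ = 1 := by
          field_simp
          ring
        rw [this, one_smul]
  have hC : IsQuotientMap C := IsQuotientMap.of_surjective_continuous hCs C.continuous
  have hfacF : Function.FactorsThrough (F : C(I × Metric.sphere (0 : Eu (m + 1)) 1, Y)) C := by
    rintro ⟨s, x⟩ ⟨s', x'⟩ hss
    have h2 : (1 - (s : ℝ)) • x.1 = (1 - (s' : ℝ)) • x'.1 := congrArg Subtype.val hss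
    have h3 : (1 - (s : ℝ)) = (1 - (s' : ℝ)) := by
      have := congrArg norm h2
      rw [norm_smul, norm_smul, mem_sphere_zero_iff_norm.1 x.2, mem_sphere_zero_iff_norm.1 x'.2,
        mul_one, mul_one, Real.norm_eq_abs, Real.norm_eq_abs,
        abs_of_nonneg (by linarith [s.2.2]), abs_of_nonneg (by linarith [s'.2.2])] at this
      exact this
    have h4 : s = s' := Subtype.ext (by linarith)
    subst h4
    by_cases h5 : (s : ℝ) = 1
    · have h6 : s = 1 := Subtype.ext h5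
      subst h6
      change F (1, x) = F (1, x')
      rw [F.apply_one, F.apply_one]
      rfl
    · have h7 : (1 - (s : ℝ)) ≠ 0 := fun h => h5 (by linarith)
      have h8 : x.1 = x'.1 := smul_right_injective _ h7 h2
      have h9 : x = x' := Subtype.ext h8
      rw [h9]
  let E : C(Metric.closedBall (0 : Eu (m + 1)) 1, Y) :=
    hC.lift (F : C(I × Metric.sphere (0 : Eu (m + 1)) 1, Y)) hfacF
  have hE : ∀ p, E (C p) = F p := by
    intro p
    have := hC.lift_comp (F : C(I × Metric.sphere (0 : Eu (m + 1)) 1, Y)) hfacF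
    exact congrArg (fun f : C(_, _) => f p) this
  have hEs : ∀ x : Metric.sphere (0 : Eu (m + 1)) 1, ∀ hx : x.1 ∈ Metric.closedBall (0 : Eu (m + 1)) 1,
      E ⟨x.1, hx⟩ = αb x := by
    intro x hx
    have h2 := hE (0, x)
    rw [F.apply_zero] at h2
    rw [← h2]
    congr 1
    apply Subtype.ext
    change x.1 = (1 - ((0 : I) : ℝ)) • x.1
    simp
  let E' : Eu (m + 1) → Y := fun x => if h : x ∈ Metric.closedBall (0 : Eu (m + 1)) 1 then E ⟨x, h⟩
    else y1
  have hE'c : ContinuousOn E' (Metric.closedBall 0 1) := by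
    rw [continuousOn_iff_continuous_domRestrict]
    have : (Metric.closedBall (0 : Eu (m + 1)) 1).domRestrict E' = E := by
      funext x
      simp only [Set.domRestrict_apply, E']
      rw [dif_pos x.2]
    rw [this]
    exact E.continuous
  have hE'q : ∀ a : Eu m, ‖a‖ ≤ 1 → E' (q0 a) = α a := by
    intro a ha
    have h2 : q0 a ∈ Metric.closedBall (0 : Eu (m + 1)) 1 := by
      rw [mem_closedBall_zero_iff, q0_norm ha]
    have h3 : E' (q0 a) = E ⟨q0 a, h2⟩ := dif_pos h2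
    rw [h3]
    have h4 := hEs (Q ⟨a, mem_closedBall_zero_iff.2 ha⟩) h2
    rw [hαb] at h4
    exact h4
  have hE'p : E' (pinf m) = y1 := by
    rw [← q0_one ha0, hE'q a0 ha0.le, h1 a0 ha0]
  refine ⟨fun t a => E' ((1 - t) • q0 a + t • pinf m), ?_, ?_, ?_, ?_⟩
  · refine hE'c.comp (f := fun p : ℝ × Eu m => (1 - p.1) • q0 p.2 + p.1 • pinf m) ?_ ?_
    · apply Continuous.continuousOn
      have := q0_continuous (m := m)
      fun_prop
    · rintro ⟨t, a⟩ ⟨ht, ha⟩
      rw [mem_closedBall_zero_iff]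
      have ha' : ‖a‖ ≤ 1 := mem_closedBall_zero_iff.1 ha
      calc ‖(1 - t) • q0 a + t • pinf m‖ ≤ ‖(1 - t) • q0 a‖ + ‖t • pinf m‖ := norm_add_le _ _
        _ = (1 - t) + t := by
          rw [norm_smul, norm_smul, q0_norm ha', pinf_norm, mul_one, mul_one, Real.norm_eq_abs,
            Real.norm_eq_abs, abs_of_nonneg (by linarith [ht.2]), abs_of_nonneg ht.1]
        _ = 1 := by ring
  · intro a ha
    simp only [sub_zero, one_smul, zero_smul, add_zero]
    exact hE'q a ha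
  · intro a
    simp only [sub_self, one_smul, zero_smul, zero_add]
    exact hE'p
  · intro t ht a ha
    change E' ((1 - t) • q0 a + t • pinf m) = y1
    rw [q0_one ha, ← add_smul]
    simp only [sub_add_cancel, one_smul]
    exact hE'p

end Pool.Agent.TH656.SD
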